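import Pool.Agent.N372.BF.Sum

set_option autoImplicit false

/-! # Bilinear exponential sums over arbitrary sets -/

namespace Pool.Agent.N372.BF

open Finset
open Pool.Agent.H469R2.NK (e norm_e e_add conj_e e_zero)
open Pool.Agent.Y961.JR (geom_bound e_sum)

lemma sum_Icc_int {E : Type} [AddCommMonoid E] (N : ℕ) (f : ℤ → E) :
    ∑ n ∈ Icc (-(N : ℤ)) N, f n = ∑ m ∈ range (2 * N + 1), f ((m : ℤ) - N) := by
  symm
  apply Finset.sum_bij (fun (m : ℕ) _ => (m : ℤ) - N)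
  · intro m hm
    rw [mem_range] at hm
    rw [mem_Icc]
    omega
  · intro m _ m' _ h
    omega
  · intro n hn
    rw [mem_Icc] at hn
    refine ⟨(n + N).toNat, ?_, ?_⟩
    · rw [mem_range]
      omega
    · omega
  · intro m _
    rfl

/-- the cube -/
noncomputable def cube (d N : ℕ) : Finset (Fin d → ℤ) := Fintype.piFinset (fun _ : Fin d => Icc (-(N : ℤ)) N)

lemma mem_cube {d N : ℕ} {a : Fin d → ℤ} : a ∈ cube d N ↔ ∀ i, |a i| ≤ N := by
  unfold cube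
  rw [Fintype.mem_piFinset]
  simp only [mem_Icc, abs_le]

lemma card_cube (d N : ℕ) : (cube d N).card = (2 * N + 1) ^ d := by
  unfold cube
  rw [Fintype.card_piFinset]
  simp only [Int.card_Icc, prod_const, card_univ, Fintype.card_fin]
  congr 1
  omega

/-- the complete sum over the cube -/
lemma cube_sum {d : ℕ} (N : ℕ) (θ : Fin d → ℝ) :
    ‖∑ a ∈ cube d N, e (∑ k, (a k : ℝ) * θ k)‖ = ∏ k, D (2 * N + 1) (θ k) := by
  have h1 : ∑ a ∈ cube d N, e (∑ k, (a k : ℝ) * θ k) =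
      ∏ k, ∑ n ∈ Icc (-(N : ℤ)) N, e ((n : ℝ) * θ k) := by
    rw [Finset.prod_univ_sum]
    unfold cube
    exact Finset.sum_congr rfl fun a _ => e_sum _ _
  rw [h1, norm_prod]
  apply Finset.prod_congr rfl
  intro k _
  rw [sum_Icc_int]
  unfold D
  have h2 : ∑ m ∈ range (2 * N + 1), e ((((m : ℤ) - N : ℤ) : ℝ) * θ k) =
      e (-(N : ℝ) * θ k) * ∑ m ∈ range (2 * N + 1), e ((m : ℝ) * θ k) := by
    rw [Finset.mul_sum]
    apply Finset.sum_congr rfl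
    intro m _
    rw [← e_add]
    congr 1
    push_cast
    ring
  rw [h2, norm_mul, norm_e, one_mul]

/-- the blocks of side `R` -/
def blk (R : ℕ) {d : ℕ} (b : Fin d → ℤ) : Fin d → ℤ := fun i => b i / (R : ℤ)

lemma blk_mem {d N R : ℕ} (hR : 0 < R) {b : Fin d → ℤ} (hb : ∀ i, |b i| ≤ N) :
    blk R b ∈ cube d (N / R + 1) := by
  rw [mem_cube]
  intro i
  have hR' : (0 : ℤ) < R := by exact_mod_cast hR
  obtain ⟨h1, h2⟩ := abs_le.1 (hb i)
  unfold blk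
  have h3 : (N : ℤ) < (N / R + 1 : ℕ) * R := by
    have := Nat.lt_div_mul_add (a := N) hR
    push_cast
    have h4 : N < N / R * R + R := this
    have h5 : (N : ℤ) < (N / R : ℕ) * R + R := by exact_mod_cast h4
    push_cast at h5
    linarith
  rw [abs_le]
  constructor
  · rw [Int.le_ediv_iff_mul_le hR']
    nlinarith
  · have : b i / (R : ℤ) < (N / R + 1 : ℕ) := by
      rw [Int.ediv_lt_iff_lt_mul hR']
      linarith
    exact this.le

lemma blk_close {d R : ℕ} (hR : 0 < R) {b b' : Fin d → ℤ} (h : blk R b = blk R b') (i : Fin d) :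
    |b i - b' i| < R := by
  have hR' : (0 : ℤ) < R := by exact_mod_cast hR
  have h1 : b i / (R : ℤ) = b' i / (R : ℤ) := congrFun h i
  have h2 := Int.mul_ediv_add_emod (b i) R
  have h3 := Int.mul_ediv_add_emod (b' i) R
  have h4 := Int.emod_nonneg (b i) hR'.ne'
  have h5 := Int.emod_nonneg (b' i) hR'.ne'
  have h6 := Int.emod_lt_of_pos (b i) hR'
  have h7 := Int.emod_lt_of_pos (b' i) hR'
  rw [h1] at h2
  rw [abs_lt]
  constructor <;> linarith

/-- the bound -/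
noncomputable def BB (d N R M : ℕ) : ℝ :=
  (2 * ((N / R + 1 : ℕ) : ℝ) + 1) ^ d * (2 * (2 * N + 1 + 2 * M * (1 + Real.log M))) ^ d

/-- the sum over one of the sets -/
theorem sum_row {d : ℕ} (N R M : ℕ) (hM : 0 < M) (hR : 0 < R) (t : (Fin d → ℤ) → Fin d → ℝ)
    (hadd : ∀ b b' i, t b i - t b' i = t (b - b') i)
    (hsep : ∀ x : Fin d → ℤ, x ≠ 0 → (∀ i, |x i| < R) → ∀ m : Fin d → ℤ, ∃ k,
      1 / (M : ℝ) ≤ |t x k - m k|)
    (B : Finset (Fin d → ℤ)) (hB : ∀ b ∈ B, ∀ i, |b i| ≤ N) (b : Fin d → ℤ) :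
    ∑ b' ∈ B, ∏ k, D (2 * N + 1) (t b k - t b' k) ≤ BB d N R M := by
  classical
  have h1 : ∑ b' ∈ B, ∏ k, D (2 * N + 1) (t b k - t b' k) =
      ∑ β ∈ cube d (N / R + 1), ∑ b' ∈ B.filter (fun b' => blk R b' = β),
        ∏ k, D (2 * N + 1) (t b k - t b' k) :=
    (Finset.sum_fiberwise_of_maps_to (fun b' hb' => blk_mem hR (hB b' hb')) _).symm
  rw [h1]
  have h2 : ∀ β ∈ cube d (N / R + 1), ∑ b' ∈ B.filter (fun b' => blk R b' = β),
      ∏ k, D (2 * N + 1) (t b k - t b' k) ≤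
        (2 * (((2 * N + 1 : ℕ) : ℝ) + 2 * M * (1 + Real.log M))) ^ d := by
    intro β _
    apply sum_sep _ (fun b' k => t b k - t b' k) (2 * N + 1) M hM
    intro b1 hb1 b2 hb2 hne m
    rw [mem_filter] at hb1 hb2
    obtain ⟨k, hk⟩ := hsep (b2 - b1) (sub_ne_zero.2 hne.symm)
      (fun i => blk_close hR (hb2.2.trans hb1.2.symm) i) m
    refine ⟨k, hk.trans (le_of_eq ?_)⟩
    rw [← hadd]
    congr 1
    ring
  refine (Finset.sum_le_card_nsmul _ _ _ h2).trans (le_of_eq ?_)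
  rw [card_cube, nsmul_eq_mul]
  unfold BB
  push_cast
  ring

/-- **The bilinear inequality.** -/
theorem bilinear {d : ℕ} (N R M : ℕ) (hM : 0 < M) (hR : 0 < R) (t : (Fin d → ℤ) → Fin d → ℝ)
    (hadd : ∀ b b' i, t b i - t b' i = t (b - b') i)
    (hsep : ∀ x : Fin d → ℤ, x ≠ 0 → (∀ i, |x i| < R) → ∀ m : Fin d → ℤ, ∃ k,
      1 / (M : ℝ) ≤ |t x k - m k|)
    (A B : Finset (Fin d → ℤ)) (hA : ∀ a ∈ A, ∀ i, |a i| ≤ N) (hB : ∀ b ∈ B, ∀ i, |b i| ≤ N)
    (u v : (Fin d → ℤ) → ℂ) (hu : ∀ a, ‖u a‖ ≤ 1) (hv : ∀ b, ‖v b‖ ≤ 1) :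
    ‖∑ a ∈ A, ∑ b ∈ B, u a * v b * e (∑ k, (a k : ℝ) * t b k)‖ ^ 2 ≤
      A.card * (B.card * BB d N R M) := by
  classical
  set S : (Fin d → ℤ) → ℂ := fun a => ∑ b ∈ B, v b * e (∑ k, (a k : ℝ) * t b k) with hS
  have h1 : ∑ a ∈ A, ∑ b ∈ B, u a * v b * e (∑ k, (a k : ℝ) * t b k) = ∑ a ∈ A, u a * S a := by
    apply Finset.sum_congr rfl
    intro a _
    rw [hS, Finset.mul_sum]
    exact Finset.sum_congr rfl fun b _ => by ring
  have h2 : ‖∑ a ∈ A, u a * S a‖ ≤ ∑ a ∈ A, ‖S a‖ := by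
    refine (norm_sum_le _ _).trans (Finset.sum_le_sum fun a _ => ?_)
    rw [norm_mul]
    calc ‖u a‖ * ‖S a‖ ≤ 1 * ‖S a‖ := mul_le_mul_of_nonneg_right (hu a) (norm_nonneg _)
      _ = ‖S a‖ := one_mul _
  have h3 : (∑ a ∈ A, ‖S a‖) ^ 2 ≤ A.card * ∑ a ∈ A, ‖S a‖ ^ 2 := sq_sum_le_card_mul_sum_sq
  have h4 : ∑ a ∈ A, ‖S a‖ ^ 2 ≤ ∑ a ∈ cube d N, ‖S a‖ ^ 2 := by
    apply Finset.sum_le_sum_of_subset_of_nonneg
    · intro a ha
      exact mem_cube.2 (hA a ha)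
    · intro a _ _
      positivity
  have h5 : ((∑ a ∈ cube d N, ‖S a‖ ^ 2 : ℝ) : ℂ) =
      ∑ b ∈ B, ∑ b' ∈ B, v b * (starRingEnd ℂ) (v b') *
        ∑ a ∈ cube d N, e (∑ k, (a k : ℝ) * (t b k - t b' k)) := by
    push_cast
    have h6 : ∀ a ∈ cube d N, ((‖S a‖ : ℂ)) ^ 2 = ∑ b ∈ B, ∑ b' ∈ B,
        v b * (starRingEnd ℂ) (v b') * e (∑ k, (a k : ℝ) * (t b k - t b' k)) := by
      intro a _
      have h7 : ((‖S a‖ : ℂ)) ^ 2 = S a * (starRingEnd ℂ) (S a) := by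
        rw [Complex.mul_conj, Complex.normSq_eq_norm_sq]
        push_cast
        rfl
      rw [h7, hS]
      simp only [map_sum, map_mul]
      rw [Finset.sum_mul_sum]
      apply Finset.sum_congr rfl
      intro b _
      apply Finset.sum_congr rfl
      intro b' _
      rw [conj_e]
      have h8 : e (∑ k, (a k : ℝ) * (t b k - t b' k)) =
          e (∑ k, (a k : ℝ) * t b k) * e (-∑ k, (a k : ℝ) * t b' k) := by
        rw [← e_add]
        congr 1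
        rw [← sub_eq_add_neg, ← Finset.sum_sub_distrib]
        exact Finset.sum_congr rfl fun k _ => by ring
      rw [h8]
      ring
    rw [Finset.sum_congr rfl h6, Finset.sum_comm]
    apply Finset.sum_congr rfl
    intro b _
    rw [Finset.sum_comm]
    apply Finset.sum_congr rfl
    intro b' _
    rw [Finset.mul_sum]
  have h9 : ∑ a ∈ cube d N, ‖S a‖ ^ 2 ≤ B.card * BB d N R M := by
    have h10 : ∑ a ∈ cube d N, ‖S a‖ ^ 2 = ‖((∑ a ∈ cube d N, ‖S a‖ ^ 2 : ℝ) : ℂ)‖ := by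
      rw [Complex.norm_real, Real.norm_eq_abs, abs_of_nonneg]
      positivity
    rw [h10, h5]
    have h11 : ∀ b ∈ B, ‖∑ b' ∈ B, v b * (starRingEnd ℂ) (v b') *
        ∑ a ∈ cube d N, e (∑ k, (a k : ℝ) * (t b k - t b' k))‖ ≤ BB d N R M := by
      intro b _
      refine (norm_sum_le _ _).trans ?_
      refine le_trans (Finset.sum_le_sum fun b' _ => ?_)
        (sum_row N R M hM hR t hadd hsep B hB b)
      rw [norm_mul, norm_mul, RCLike.norm_conj, cube_sum]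
      have h12 : ‖v b‖ * ‖v b'‖ ≤ 1 := by
        calc ‖v b‖ * ‖v b'‖ ≤ 1 * 1 := mul_le_mul (hv b) (hv b') (norm_nonneg _) zero_le_one
          _ = 1 := one_mul _
      calc ‖v b‖ * ‖v b'‖ * ∏ k, D (2 * N + 1) (t b k - t b' k)
          ≤ 1 * ∏ k, D (2 * N + 1) (t b k - t b' k) :=
            mul_le_mul_of_nonneg_right h12 (Finset.prod_nonneg fun k _ => D_nonneg _ _)
        _ = _ := one_mul _
    refine (norm_sum_le _ _).trans ?_
    refine (Finset.sum_le_card_nsmul _ _ _ h11).trans (le_of_eq ?_)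
    rw [nsmul_eq_mul]
  rw [h1]
  calc ‖∑ a ∈ A, u a * S a‖ ^ 2 ≤ (∑ a ∈ A, ‖S a‖) ^ 2 := pow_le_pow_left₀ (norm_nonneg _) h2 2
    _ ≤ A.card * ∑ a ∈ A, ‖S a‖ ^ 2 := h3
    _ ≤ A.card * (B.card * BB d N R M) :=
        mul_le_mul_of_nonneg_left (h4.trans h9) (Nat.cast_nonneg _)

end Pool.Agent.N372.BF
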