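import Pool.Agent.N372.BF.Main

set_option autoImplicit false

/-! # Real multiples of inner products -/

namespace Pool.Agent.N372.BF

open Finset Filter
open Pool.Agent.W147.PS (ff ev_pow)

/-- Diophantine condition -/
def Typ {r : ℕ} (τ C : ℝ) (α : Fin r → ℝ) : Prop := ∃ c : ℝ, 0 < c ∧
  ∀ (k H : ℕ) (h : Fin r → ℤ) (m : ℤ), 1 ≤ k → h ≠ 0 → (∀ j, |h j| ≤ H) →
    c * (k : ℝ) ^ (-τ) * (H : ℝ) ^ (-C) ≤ |(k : ℝ) * ∑ j, (h j : ℝ) * α j - m|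

/-- the scalar matrices -/
def diag (d : ℕ) (x : ℝ) : Matrix (Fin d) (Fin d) ℝ := Matrix.diagonal fun _ => x

lemma diag_row {d : ℕ} (x : ℝ) (i : Fin d) (b : Fin d → ℤ) :
    ∑ k, diag d x i k * (b k : ℝ) = x * b i := by
  rw [Finset.sum_eq_single i]
  · simp [diag]
  · intro k _ hk
    simp [diag, Matrix.diagonal_apply_ne' _ hk]
  · simp

lemma bil_diag {d : ℕ} (x : ℝ) (a b : Fin d → ℤ) :
    bil (diag d x) a b = x * ∑ i, (a i : ℝ) * b i := by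
  unfold bil
  rw [Finset.mul_sum]
  apply Finset.sum_congr rfl
  intro i _
  rw [diag_row]
  ring

lemma typ_hyp {d r : ℕ} (τ C η σ : ℝ) (hτ : 1 ≤ τ) (hC : 0 ≤ C) (hη : 0 < η)
    (hσC : σ * C ≤ η / 2) (α : Fin r → ℝ) (hα : Typ τ C α) : ∀ᶠ N : ℕ in atTop,
    ∀ (h : Fin r → ℤ) (x : Fin d → ℤ), h ≠ 0 → x ≠ 0 → (∀ j, |(h j : ℝ)| ≤ (N : ℝ) ^ σ) →
      (∀ i, |(x i : ℝ)| ≤ (N : ℝ) ^ (1 / τ)) → ∀ m : Fin d → ℤ, ∃ i,
      (N : ℝ) ^ (-(1 + η)) ≤ |∑ j, (h j : ℝ) * ∑ k, diag d (α j) i k * (x k : ℝ) - m i| := by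
  obtain ⟨c, hc, hh⟩ := hα
  filter_upwards [ev_nat (ev_pow (-(1 + η)) (-(1 + η / 2)) (1 / c) (by linarith)),
    eventually_ge_atTop 1] with N hN hN1
  intro h x hh0 hx0 hhN hxN m
  set y : ℝ := (N : ℝ) with hy
  have hy1 : 1 ≤ y := by rw [hy]; exact_mod_cast hN1
  have hy0 : 0 < y := lt_of_lt_of_le one_pos hy1
  obtain ⟨i, hi⟩ : ∃ i, x i ≠ 0 := by
    by_contra hcon
    push Not at hcon
    exact hx0 (funext hcon)
  obtain ⟨j0, hj0⟩ : ∃ j, h j ≠ 0 := by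
    by_contra hcon
    push Not at hcon
    exact hh0 (funext hcon)
  refine ⟨i, ?_⟩
  set H : ℕ := ⌊y ^ σ⌋₊ with hH
  have hyσ : 0 ≤ y ^ σ := Real.rpow_nonneg hy0.le _
  have hhH : ∀ j, |h j| ≤ (H : ℤ) := by
    intro j
    have h1 : ((h j).natAbs : ℝ) ≤ y ^ σ := by
      have h2 : ((h j).natAbs : ℝ) = |(h j : ℝ)| := by
        rw [Nat.cast_natAbs]; push_cast; rfl
      rw [h2]
      exact hhN j
    have h3 : (h j).natAbs ≤ H := Nat.le_floor h1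
    rw [Int.abs_eq_natAbs]
    exact_mod_cast h3
  have hH1 : 1 ≤ H := by
    have := hhH j0
    have h2 : 1 ≤ |h j0| := Int.one_le_abs hj0
    omega
  set k : ℕ := (x i).natAbs with hk
  have hk1 : 1 ≤ k := by omega
  have hkr : (k : ℝ) = |(x i : ℝ)| := by
    rw [hk, Nat.cast_natAbs]; push_cast; rfl
  have hkN : (k : ℝ) ≤ y ^ (1 / τ) := by rw [hkr]; exact hxN i
  have hk0 : (0 : ℝ) < k := by exact_mod_cast hk1
  have hτ0 : 0 < τ := by linarith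
  have e1 : ∑ j, (h j : ℝ) * ∑ l, diag d (α j) i l * (x l : ℝ) =
      (x i : ℝ) * ∑ j, (h j : ℝ) * α j := by
    rw [Finset.mul_sum]
    apply Finset.sum_congr rfl
    intro j _
    rw [diag_row]
    ring
  rw [e1]
  have hlow : ∀ m' : ℤ, y ^ (-(1 + η)) ≤ |(k : ℝ) * ∑ j, (h j : ℝ) * α j - m'| := by
    intro m'
    refine le_trans ?_ (hh k H h m' hk1 hh0 hhH)
    have h4 : y ^ (-1 : ℝ) ≤ (k : ℝ) ^ (-τ) := by
      have h5 : (k : ℝ) ^ τ ≤ y := by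
        calc (k : ℝ) ^ τ ≤ (y ^ (1 / τ)) ^ τ := Real.rpow_le_rpow hk0.le hkN hτ0.le
          _ = y := by
            rw [← Real.rpow_mul hy0.le]
            have : 1 / τ * τ = 1 := by field_simp
            rw [this, Real.rpow_one]
      rw [Real.rpow_neg hk0.le, Real.rpow_neg hy0.le, Real.rpow_one]
      exact inv_anti₀ (Real.rpow_pos_of_pos hk0 _) h5
    have hH0 : (0 : ℝ) < H := by exact_mod_cast hH1
    have h6 : y ^ (-(η / 2)) ≤ (H : ℝ) ^ (-C) := by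
      have h7 : (H : ℝ) ^ C ≤ y ^ (η / 2) := by
        calc (H : ℝ) ^ C ≤ (y ^ σ) ^ C := Real.rpow_le_rpow hH0.le (Nat.floor_le hyσ) hC
          _ = y ^ (σ * C) := (Real.rpow_mul hy0.le _ _).symm
          _ ≤ y ^ (η / 2) := Real.rpow_le_rpow_of_exponent_le hy1 hσC
      rw [Real.rpow_neg hH0.le, Real.rpow_neg hy0.le]
      exact inv_anti₀ (Real.rpow_pos_of_pos hH0 _) h7
    have h8 : y ^ (-(1 + η)) ≤ c * y ^ (-(1 + η / 2)) := by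
      have h9 := mul_le_mul_of_nonneg_left hN hc.le
      have e2 : c * (1 / c * y ^ (-(1 + η))) = y ^ (-(1 + η)) := by field_simp
      rwa [e2] at h9
    refine h8.trans ?_
    have e3 : y ^ (-(1 + η / 2)) = y ^ (-1 : ℝ) * y ^ (-(η / 2)) := by
      rw [← Real.rpow_add hy0]
      congr 1
      ring
    rw [e3, mul_assoc]
    apply mul_le_mul_of_nonneg_left _ hc.le
    exact mul_le_mul h4 h6 (Real.rpow_nonneg hy0.le _) (Real.rpow_nonneg hk0.le _)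
  rcases le_or_gt 0 (x i) with hpos | hneg
  · have e4 : (x i : ℝ) = k := by
      rw [hkr, abs_of_nonneg (by exact_mod_cast hpos)]
    rw [e4]
    exact hlow (m i)
  · have e4 : (x i : ℝ) = -k := by
      rw [hkr, abs_of_neg (by exact_mod_cast hneg)]
      ring
    rw [e4]
    have h10 := hlow (-m i)
    push_cast at h10
    have e5 : -(k : ℝ) * ∑ j, (h j : ℝ) * α j - m i =
        -((k : ℝ) * ∑ j, (h j : ℝ) * α j - -(m i : ℝ)) := by ring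
    rw [e5, abs_neg]
    exact h10

/-- **Real multiples of inner products.** -/
theorem scal (d r : ℕ) (hr : 1 ≤ r) (τ C δ : ℝ) (hτ : 1 ≤ τ) (hC : 0 ≤ C) (hδ : 0 < δ)
    (hδ1 : δ ≤ 1) : ∃ σ κ : ℝ, 0 < σ ∧ σ ≤ eta d δ ∧ 0 < κ ∧ ∀ α : Fin r → ℝ, Typ τ C α →
    ∀ᶠ N : ℕ in atTop, ∀ A B : Finset (Fin d → ℤ), (∀ a ∈ A, ∀ i, |a i| ≤ N) →
    (∀ b ∈ B, ∀ i, |b i| ≤ N) → (N : ℝ) ^ (d * (2 - 1 / τ) + δ) ≤ A.card * B.card →
    ∀ φ ψ : Fin r → (Fin d → ℤ) → ℝ,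
      A.card * B.card * (N : ℝ) ^ (-δ) ≤
        ((GG (fun j => diag d (α j)) φ ψ A B ((N : ℝ) ^ σ) (κ * ff N)).card : ℝ) := by
  have hη := eta_pos d hδ
  obtain ⟨σ, hσ⟩ : ∃ σ : ℝ, σ = eta d δ / (2 * (C + 1)) := ⟨_, rfl⟩
  have hσ0 : 0 < σ := by rw [hσ]; positivity
  have hσm : σ * (2 * (C + 1)) = eta d δ := by
    rw [hσ]
    field_simp
  have hση : σ ≤ eta d δ := by nlinarith
  have hσC : σ * C ≤ eta d δ / 2 := by nlinarith
  have hτ0 : 0 < τ := by linarith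
  obtain ⟨κ, hκ, hm⟩ := main d r hr (1 / τ) δ σ (by positivity) ((div_le_one hτ0).2 hτ) hδ hδ1
    hσ0 hση
  refine ⟨σ, κ, hσ0, hση, hκ, ?_⟩
  intro α hα
  filter_upwards [hm, typ_hyp (d := d) τ C (eta d δ) σ hτ hC hη hσC α hα] with N h1 h2
  intro A B hA hB hAB φ ψ
  exact h1 _ h2 A B hA hB hAB φ ψ

end Pool.Agent.N372.BF
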