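import Pool.Agent.N372.BF.Prod

set_option autoImplicit false

/-! # Distances -/

namespace Pool.Agent.N372.BF

open Finset Filter
open Pool.Agent.W147.PS (ff ev_pow)

/-- the square of the distance -/
def dsq {d : ℕ} (a b : Fin d → ℤ) : ℤ := ∑ i, (a i - b i) ^ 2

open Classical in
/-- the good pairs of points -/
noncomputable def QQ {d r : ℕ} (α : Fin r → ℝ) (A B : Finset (Fin d → ℤ)) (D : ℝ) :
    Finset ((Fin d → ℤ) × (Fin d → ℤ)) :=
  (A ×ˢ B).filter (fun w => ∀ j, Free (α j * dsq w.1 w.2) D)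

lemma typ_scale {r : ℕ} {τ C : ℝ} {α : Fin r → ℝ} (h : Typ τ C α) :
    Typ τ C (fun j => -2 * α j) := by
  obtain ⟨c, hc, hh⟩ := h
  refine ⟨c * (2 : ℝ) ^ (-C), by positivity, ?_⟩
  intro k H h m hk hh0 hhH
  have h1 := hh k (2 * H) (fun j => -2 * h j) m hk (by
    intro h2
    apply hh0
    funext j
    have := congrFun h2 j
    simp only [Pi.zero_apply] at this ⊢
    omega) (by
    intro j
    have h2 := hhH j
    rw [abs_mul]
    push_cast
    norm_num
    exact h2)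
  have e1 : ∑ j, ((-2 * h j : ℤ) : ℝ) * α j = ∑ j, (h j : ℝ) * (-2 * α j) := by
    apply Finset.sum_congr rfl
    intro j _
    push_cast
    ring
  rw [e1] at h1
  refine le_trans (le_of_eq ?_) h1
  push_cast
  rw [Real.mul_rpow (by norm_num) (Nat.cast_nonneg _)]
  ring

theorem dists (d r : ℕ) (hr : 1 ≤ r) (τ C δ : ℝ) (hτ : 1 ≤ τ) (hC : 0 ≤ C) (hδ : 0 < δ)
    (hδ1 : δ ≤ 1) : ∃ κ : ℝ, 0 < κ ∧ ∀ α : Fin r → ℝ, (∀ j, 0 < α j) → Typ τ C α →
    ∀ᶠ N : ℕ in atTop, ∀ A B : Finset (Fin d → ℤ), (∀ a ∈ A, ∀ i, |a i| ≤ N) →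
    (∀ b ∈ B, ∀ i, |b i| ≤ N) → (N : ℝ) ^ (d * (2 - 1 / τ) + δ) ≤ A.card * B.card →
      A.card * B.card * (N : ℝ) ^ (-δ) ≤ ((QQ α A B (κ * ff N)).card : ℝ) := by
  classical
  obtain ⟨σ, κ, hσ0, hση, hκ, hs⟩ := scal d r hr τ C (δ / 2) hτ hC (by linarith) (by linarith)
  have hη : eta d (δ / 2) * (16 * ((d : ℝ) + 1)) = δ / 2 := eta_mul d (δ / 2)
  have hd0 : (0 : ℝ) ≤ d := Nat.cast_nonneg d
  have hσd : d * σ ≤ δ / 8 := by
    have h1 : d * σ ≤ d * eta d (δ / 2) := mul_le_mul_of_nonneg_left hση hd0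
    have h2 := eta_pos d (show 0 < δ / 2 by linarith)
    nlinarith
  refine ⟨κ, hκ, ?_⟩
  intro α hα hT
  set K : ℝ := ∑ i, 1 / α i with hK
  have hK0 : 0 ≤ K := Finset.sum_nonneg fun i _ => by have := hα i; positivity
  have hτ0 : 0 < τ := by linarith
  have hτi : 1 / τ ≤ 1 := (div_le_one hτ0).2 hτ
  filter_upwards [hs _ (typ_scale hT),
    ev_nat (ev_pow (δ / 8 + δ / 2) δ (2 * (3 * (2 * K + 1)) ^ d) (by linarith)),
    ev_nat (ev_pow (-δ) (-(δ / 2)) 2 (by linarith)), eventually_ge_atTop 1] with N hN h1 h2 hN1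
  intro A B hA hB hAB
  set y : ℝ := (N : ℝ) with hy
  have hy1 : 1 ≤ y := by rw [hy]; exact_mod_cast hN1
  have hy0 : 0 < y := lt_of_lt_of_le one_pos hy1
  set P : ℝ := A.card * B.card with hP
  have hP0 : 0 < P := lt_of_lt_of_le (Real.rpow_pos_of_pos hy0 _) hAB
  have hmain := hN A B hA hB (by
      refine le_trans ?_ hAB
      apply Real.rpow_le_rpow_of_exponent_le hy1
      linarith) (fun j x => α j * ∑ i, (x i : ℝ) ^ 2) (fun j x => α j * ∑ i, (x i : ℝ) ^ 2)
  -- the close pairs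
  set Y : ℕ := ⌊K * y ^ σ⌋₊ with hY
  set S : Finset ((Fin d → ℤ) × (Fin d → ℤ)) :=
    (A ×ˢ cube d Y).image (fun w => (w.1, w.1 + w.2)) with hS
  have hsub : GG (fun j => diag d (-2 * α j)) (fun j x => α j * ∑ i, (x i : ℝ) ^ 2)
      (fun j x => α j * ∑ i, (x i : ℝ) ^ 2) A B (y ^ σ) (κ * ff y) ⊆
      S ∪ QQ α A B (κ * ff y) := by
    intro w hw
    unfold GG at hw
    rw [Finset.mem_filter] at hw
    obtain ⟨hw1, hw3⟩ := hw
    have hval : ∀ j, bil (diag d (-2 * α j)) w.1 w.2 + α j * ∑ i, (w.1 i : ℝ) ^ 2 +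
        α j * ∑ i, (w.2 i : ℝ) ^ 2 = α j * dsq w.1 w.2 := by
      intro j
      rw [bil_diag]
      unfold dsq
      push_cast
      rw [Finset.mul_sum, Finset.mul_sum, Finset.mul_sum, Finset.mul_sum,
        ← Finset.sum_add_distrib, ← Finset.sum_add_distrib]
      apply Finset.sum_congr rfl
      intro i _
      ring
    simp only [hval] at hw3
    rw [Finset.mem_union]
    rcases hw3 with ⟨j, hj⟩ | h
    · left
      rw [hS, Finset.mem_image]
      refine ⟨(w.1, w.2 - w.1), ?_, ?_⟩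
      · rw [Finset.mem_product]
        refine ⟨(Finset.mem_product.1 hw1).1, ?_⟩
        rw [mem_cube]
        intro i
        have hαj := hα j
        have h3 : (dsq w.1 w.2 : ℝ) ≤ K * y ^ σ := by
          have h7 : (dsq w.1 w.2 : ℝ) = 1 / α j * (α j * dsq w.1 w.2) := by field_simp
          rw [h7]
          calc 1 / α j * (α j * dsq w.1 w.2) ≤ 1 / α j * y ^ σ :=
                mul_le_mul_of_nonneg_left hj.le (by positivity)
            _ ≤ K * y ^ σ := mul_le_mul_of_nonneg_right (inv_le_sum α hα j)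
                (Real.rpow_nonneg hy0.le _)
        have h4 : (w.1 i - w.2 i) ^ 2 ≤ dsq w.1 w.2 :=
          Finset.single_le_sum (f := fun i => (w.1 i - w.2 i) ^ 2) (fun i _ => sq_nonneg _)
            (Finset.mem_univ i)
        have h5 : |w.1 i - w.2 i| ≤ (w.1 i - w.2 i) ^ 2 := by
          rcases eq_or_ne (w.1 i - w.2 i) 0 with h0 | h0
          · rw [h0]; simp
          · have h6 : 1 ≤ |w.1 i - w.2 i| := Int.one_le_abs h0
            have h7 : (w.1 i - w.2 i) ^ 2 = |w.1 i - w.2 i| * |w.1 i - w.2 i| := by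
              rw [← sq, sq_abs]
            rw [h7]
            nlinarith
        have h8 : ((|w.1 i - w.2 i| : ℤ) : ℝ) ≤ K * y ^ σ := by
          refine le_trans ?_ h3
          exact_mod_cast h5.trans h4
        have h9 : ((w.1 i - w.2 i).natAbs : ℝ) ≤ K * y ^ σ := by
          have h10 : ((w.1 i - w.2 i).natAbs : ℝ) = ((|w.1 i - w.2 i| : ℤ) : ℝ) := by
            rw [Nat.cast_natAbs]
          rw [h10]
          exact h8
        have h11 : (w.1 i - w.2 i).natAbs ≤ Y := Nat.le_floor h9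
        show |(w.2 - w.1) i| ≤ (Y : ℤ)
        rw [Pi.sub_apply, abs_sub_comm, Int.abs_eq_natAbs]
        exact_mod_cast h11
      · show (w.1, w.1 + (w.2 - w.1)) = w
        rw [add_sub_cancel]
    · right
      unfold QQ
      rw [Finset.mem_filter]
      exact ⟨hw1, h⟩
  have hcard : ((GG (fun j => diag d (-2 * α j)) (fun j x => α j * ∑ i, (x i : ℝ) ^ 2)
      (fun j x => α j * ∑ i, (x i : ℝ) ^ 2) A B (y ^ σ) (κ * ff y)).card : ℝ) ≤
      S.card + (QQ α A B (κ * ff y)).card := by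
    exact_mod_cast (Finset.card_le_card hsub).trans (Finset.card_union_le _ _)
  have hA2 : (A.card : ℝ) ≤ (3 * y) ^ d := by
    have h3 : A ⊆ cube d N := fun a ha => mem_cube.2 (hA a ha)
    have h4 : (A.card : ℝ) ≤ ((2 * N + 1) ^ d : ℕ) := by
      rw [← card_cube]
      exact_mod_cast Finset.card_le_card h3
    refine h4.trans ?_
    push_cast
    exact pow_le_pow_left₀ (by positivity) (by linarith) d
  have hA0 : (0 : ℝ) < A.card := by
    by_contra hcon
    push Not at hcon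
    have : (A.card : ℝ) = 0 := le_antisymm hcon (Nat.cast_nonneg _)
    rw [hP, this, zero_mul] at hP0
    exact lt_irrefl _ hP0
  have hB2 : y ^ δ ≤ 3 ^ d * B.card := by
    have h3 : y ^ δ * (3 * y) ^ d ≤ 3 ^ d * B.card * (3 * y) ^ d := by
      have h4 : y ^ δ * y ^ d ≤ P := by
        refine le_trans ?_ hAB
        rw [← Real.rpow_natCast y d, ← Real.rpow_add hy0]
        apply Real.rpow_le_rpow_of_exponent_le hy1
        nlinarith
      calc y ^ δ * (3 * y) ^ d = 3 ^ d * (y ^ δ * y ^ d) := by rw [mul_pow]; ring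
        _ ≤ 3 ^ d * P := mul_le_mul_of_nonneg_left h4 (by positivity)
        _ = 3 ^ d * B.card * A.card := by rw [hP]; ring
        _ ≤ 3 ^ d * B.card * (3 * y) ^ d := mul_le_mul_of_nonneg_left hA2 (by positivity)
    exact le_of_mul_le_mul_right h3 (by positivity)
  have hScard : (S.card : ℝ) ≤ P / 2 * y ^ (-(δ / 2)) := by
    have hyσ : 1 ≤ y ^ σ := Real.one_le_rpow hy1 hσ0.le
    have h3 : (S.card : ℝ) ≤ A.card * (2 * (Y : ℝ) + 1) ^ d := by
      have h4 : S.card ≤ A.card * (2 * Y + 1) ^ d := by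
        rw [hS]
        refine Finset.card_image_le.trans ?_
        rw [Finset.card_product, card_cube]
      exact_mod_cast h4
    have h5 : 2 * (Y : ℝ) + 1 ≤ (2 * K + 1) * y ^ σ := by
      have := Nat.floor_le (show 0 ≤ K * y ^ σ by positivity)
      nlinarith
    have h6 : (2 * (Y : ℝ) + 1) ^ d ≤ (2 * K + 1) ^ d * y ^ (δ / 8) := by
      calc (2 * (Y : ℝ) + 1) ^ d ≤ ((2 * K + 1) * y ^ σ) ^ d :=
            pow_le_pow_left₀ (by positivity) h5 d
        _ = (2 * K + 1) ^ d * y ^ (σ * d) := by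
            rw [mul_pow, ← Real.rpow_natCast (y ^ σ), ← Real.rpow_mul hy0.le]
        _ ≤ _ := by
            apply mul_le_mul_of_nonneg_left _ (by positivity)
            apply Real.rpow_le_rpow_of_exponent_le hy1
            linarith
    have h7 : (2 * K + 1) ^ d * y ^ (δ / 8) ≤ B.card / 2 * y ^ (-(δ / 2)) := by
      have h8 : 2 * (3 * (2 * K + 1)) ^ d * y ^ (δ / 8 + δ / 2) ≤ 3 ^ d * B.card := h1.trans hB2
      have h9 : y ^ (-(δ / 2)) * y ^ (δ / 2) = 1 := by
        rw [← Real.rpow_add hy0]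
        simp
      have h10 : (2 * K + 1) ^ d * y ^ (δ / 8) * (2 * 3 ^ d * y ^ (δ / 2)) ≤
          B.card / 2 * y ^ (-(δ / 2)) * (2 * 3 ^ d * y ^ (δ / 2)) := by
        calc (2 * K + 1) ^ d * y ^ (δ / 8) * (2 * 3 ^ d * y ^ (δ / 2)) =
              2 * (3 * (2 * K + 1)) ^ d * y ^ (δ / 8 + δ / 2) := by
                rw [mul_pow, Real.rpow_add hy0]
                ring
          _ ≤ 3 ^ d * B.card := h8
          _ = B.card / 2 * (2 * 3 ^ d) * (y ^ (-(δ / 2)) * y ^ (δ / 2)) := by rw [h9]; ring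
          _ = _ := by ring
      exact le_of_mul_le_mul_right h10 (by positivity)
    calc (S.card : ℝ) ≤ A.card * (2 * (Y : ℝ) + 1) ^ d := h3
      _ ≤ A.card * ((2 * K + 1) ^ d * y ^ (δ / 8)) := mul_le_mul_of_nonneg_left h6 hA0.le
      _ ≤ A.card * (B.card / 2 * y ^ (-(δ / 2))) := mul_le_mul_of_nonneg_left h7 hA0.le
      _ = _ := by rw [hP]; ring
  have h6 : P * y ^ (-δ) ≤ P / 2 * y ^ (-(δ / 2)) := by
    calc P * y ^ (-δ) = P / 2 * (2 * y ^ (-δ)) := by ring
      _ ≤ P / 2 * y ^ (-(δ / 2)) := mul_le_mul_of_nonneg_left h2 (half_pos hP0).le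
  have h7 : P * y ^ (-(δ / 2)) ≤
      ((GG (fun j => diag d (-2 * α j)) (fun j x => α j * ∑ i, (x i : ℝ) ^ 2)
      (fun j x => α j * ∑ i, (x i : ℝ) ^ 2) A B (y ^ σ) (κ * ff y)).card : ℝ) := hmain
  linarith

end Pool.Agent.N372.BF
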