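import Pool.Agent.N372.BF.Par
import Pool.Agent.Y961.JR.ScaledJ

set_option autoImplicit false

/-! # Record prime gaps at the values of bilinear forms over arbitrary sets -/

namespace Pool.Agent.N372.BF

open Finset Filter
open Pool.Agent.H469R2.NK (e norm_e e_add conj_e e_zero)
open Pool.Agent.W147.PS (ff ev_pow)
open Pool.Agent.Y961.JR (crit_scaledJ)

/-- `⟨a, T b⟩` -/
noncomputable def bil {d : ℕ} (T : Matrix (Fin d) (Fin d) ℝ) (a b : Fin d → ℤ) : ℝ :=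
  ∑ i, (a i : ℝ) * ∑ k, T i k * (b k : ℝ)

/-- no prime is at distance at most `D` from `x` -/
def Free (x D : ℝ) : Prop := ∀ q : ℕ, q.Prime → D < |(q : ℝ) - x|

open Classical in
/-- the pairs which have a small value or are far from the primes -/
noncomputable def GG {d r : ℕ} (T : Fin r → Matrix (Fin d) (Fin d) ℝ)
    (φ ψ : Fin r → (Fin d → ℤ) → ℝ) (A B : Finset (Fin d → ℤ)) (y D : ℝ) :
    Finset ((Fin d → ℤ) × (Fin d → ℤ)) :=
  (A ×ˢ B).filter (fun w => (∃ j, bil (T j) w.1 w.2 + φ j w.1 + ψ j w.2 < y) ∨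
    ∀ j, Free (bil (T j) w.1 w.2 + φ j w.1 + ψ j w.2) D)

/-- the loss in the exponents -/
noncomputable def eta (d : ℕ) (δ : ℝ) : ℝ := δ / (16 * ((d : ℝ) + 1))

lemma eta_pos (d : ℕ) {δ : ℝ} (hδ : 0 < δ) : 0 < eta d δ := by
  unfold eta
  positivity

lemma eta_mul (d : ℕ) (δ : ℝ) : eta d δ * (16 * ((d : ℝ) + 1)) = δ := by
  unfold eta
  field_simp

theorem main (d r : ℕ) (hr : 1 ≤ r) (ρ δ σ : ℝ) (hρ0 : 0 < ρ) (hρ1 : ρ ≤ 1) (hδ : 0 < δ)
    (hδ1 : δ ≤ 1) (hσ : 0 < σ) (hση : σ ≤ eta d δ) : ∃ κ : ℝ, 0 < κ ∧ ∀ᶠ N : ℕ in atTop,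
    ∀ T : Fin r → Matrix (Fin d) (Fin d) ℝ,
    (∀ (h : Fin r → ℤ) (x : Fin d → ℤ), h ≠ 0 → x ≠ 0 → (∀ j, |(h j : ℝ)| ≤ (N : ℝ) ^ σ) →
      (∀ i, |(x i : ℝ)| ≤ (N : ℝ) ^ ρ) → ∀ m : Fin d → ℤ, ∃ i,
      (N : ℝ) ^ (-(1 + eta d δ)) ≤ |∑ j, (h j : ℝ) * ∑ k, T j i k * (x k : ℝ) - m i|) →
    ∀ A B : Finset (Fin d → ℤ), (∀ a ∈ A, ∀ i, |a i| ≤ N) → (∀ b ∈ B, ∀ i, |b i| ≤ N) →
    (N : ℝ) ^ (d * (2 - ρ) + δ) ≤ A.card * B.card →
    ∀ φ ψ : Fin r → (Fin d → ℤ) → ℝ,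
      A.card * B.card * (N : ℝ) ^ (-δ) ≤
        ((GG T φ ψ A B ((N : ℝ) ^ σ) (κ * ff N)).card : ℝ) := by
  classical
  have hd0 : (0 : ℝ) ≤ d := Nat.cast_nonneg d
  have hη0 : 0 < eta d δ := eta_pos d hδ
  have hηd : eta d δ * (16 * ((d : ℝ) + 1)) = δ := eta_mul d δ
  obtain ⟨η, hη⟩ : ∃ η : ℝ, η = eta d δ := ⟨_, rfl⟩
  rw [← hη] at hη0 hηd hση
  have hη1 : 16 * η ≤ δ := by nlinarith
  have hηd2 : 16 * (d * η) ≤ δ := by nlinarith
  obtain ⟨κ, hκ, hc⟩ := crit_scaledJ r hr σ hσ (by linarith)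
  refine ⟨κ, hκ, ?_⟩
  rw [← hη]
  filter_upwards [ev_BB d ρ η hρ0 hρ1 hη0, ev_nat hc, ev_nat (ev_pow (-(δ / 4)) (-σ) 4 (by linarith)),
    ev_nat (ev_pow (-δ) 0 2 (by linarith)), eventually_ge_atTop 1] with N hBB hcr h4 h2 hN1
  obtain ⟨hR, hM, hM2, hB2⟩ := hBB
  intro T hT A B hA hB hAB φ ψ
  by_contra hcon
  push Not at hcon
  set x : ℝ := (N : ℝ) with hx
  have hx1 : 1 ≤ x := by rw [hx]; exact_mod_cast hN1
  have hx0 : 0 < x := lt_of_lt_of_le one_pos hx1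
  rw [Real.rpow_zero] at h2
  set G := GG T φ ψ A B (x ^ σ) (κ * ff x) with hG
  set val : Fin r → (Fin d → ℤ) × (Fin d → ℤ) → ℝ :=
    fun j w => bil (T j) w.1 w.2 + φ j w.1 + ψ j w.2 with hval
  set P : ℝ := A.card * B.card with hP
  have hP0 : 0 < P := lt_of_lt_of_le (Real.rpow_pos_of_pos hx0 _) hAB
  set s : Finset ((Fin d → ℤ) × (Fin d → ℤ)) := (A ×ˢ B) \ G with hs
  have hGsub : G ⊆ A ×ˢ B := by
    rw [hG]
    exact Finset.filter_subset _ _
  have hcard : ((A ×ˢ B).card : ℝ) = P := by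
    rw [Finset.card_product]
    push_cast
    rfl
  have hscard : (s.card : ℝ) = P - G.card := by
    rw [hs, Finset.card_sdiff_of_subset hGsub, Nat.cast_sub (Finset.card_le_card hGsub), hcard]
  have hG1 : (G.card : ℝ) ≤ P / 2 := by
    have : P * x ^ (-δ) ≤ P / 2 := by
      have h5 : x ^ (-δ) ≤ 1 / 2 := by linarith
      calc P * x ^ (-δ) ≤ P * (1 / 2) := mul_le_mul_of_nonneg_left h5 hP0.le
        _ = P / 2 := by ring
    linarith
  have hs2 : P / 2 ≤ s.card := by rw [hscard]; linarith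
  have hsne : s.Nonempty := by
    rw [← Finset.card_pos]
    have : (0 : ℝ) < s.card := by linarith
    exact_mod_cast this
  have hnotG : ∀ w ∈ s, w ∉ G := fun w hw => (Finset.mem_sdiff.1 hw).2
  have hmem : ∀ w ∈ s, w ∈ A ×ˢ B := fun w hw => (Finset.mem_sdiff.1 hw).1
  have hGmem : ∀ w ∈ A ×ˢ B, ((∃ j, val j w < x ^ σ) ∨ ∀ j, Free (val j w) (κ * ff x)) → w ∈ G := by
    intro w hw h
    rw [hG]
    unfold GG
    rw [Finset.mem_filter]
    exact ⟨hw, h⟩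
  -- the exponential sums
  have hsum : ∀ q : ℕ, 1 ≤ q → (q : ℝ) ≤ x ^ σ → ∀ h : Fin r → ℤ, h ≠ 0 →
      (∀ j, |(h j : ℝ)| ≤ x ^ σ) →
      ‖∑ w ∈ s, e (∑ j, (h j : ℝ) * (val j w / q))‖ ≤ s.card * x ^ (-σ) := by
    intro q hq hqx h hh hhx
    have hq0 : (0 : ℝ) < q := by exact_mod_cast hq
    set t : (Fin d → ℤ) → Fin d → ℝ := fun b i => (∑ j, (h j : ℝ) * ∑ k, T j i k * (b k : ℝ)) / q
      with ht
    have hadd : ∀ b b' i, t b i - t b' i = t (b - b') i := by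
      intro b b' i
      simp only [ht]
      rw [← sub_div, ← Finset.sum_sub_distrib]
      congr 1
      apply Finset.sum_congr rfl
      intro j _
      rw [← mul_sub, ← Finset.sum_sub_distrib]
      congr 1
      apply Finset.sum_congr rfl
      intro k _
      rw [Pi.sub_apply]
      push_cast
      ring
    have hsep : ∀ y : Fin d → ℤ, y ≠ 0 → (∀ i, |y i| < (⌊x ^ ρ⌋₊ : ℤ)) → ∀ m : Fin d → ℤ, ∃ k,
        1 / ((⌈x ^ (1 + 2 * η)⌉₊ : ℕ) : ℝ) ≤ |t y k - m k| := by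
      intro y hy hyR m
      obtain ⟨i, hi⟩ := hT h y hh hy hhx (fun i => by
        have h5 : |y i| ≤ (⌊x ^ ρ⌋₊ : ℤ) := (hyR i).le
        have h6 : (|y i| : ℝ) ≤ (⌊x ^ ρ⌋₊ : ℝ) := by exact_mod_cast h5
        exact h6.trans (Nat.floor_le (Real.rpow_nonneg hx0.le _))) (fun i => (q : ℤ) * m i)
      refine ⟨i, hM2.trans ?_⟩
      have e1 : t y i - m i = ((∑ j, (h j : ℝ) * ∑ k, T j i k * (y k : ℝ)) -
          (((q : ℤ) * m i : ℤ) : ℝ)) / q := by
        simp only [ht]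
        push_cast
        field_simp
      rw [e1, abs_div, abs_of_pos hq0, le_div_iff₀ hq0]
      refine le_trans ?_ hi
      calc x ^ (-(1 + 2 * η)) * q ≤ x ^ (-(1 + 2 * η)) * x ^ η :=
            mul_le_mul_of_nonneg_left (hqx.trans (Real.rpow_le_rpow_of_exponent_le hx1 hση))
              (Real.rpow_nonneg hx0.le _)
        _ = x ^ (-(1 + η)) := by
            rw [← Real.rpow_add hx0]
            congr 1
            ring
    have hbil := bilinear N ⌊x ^ ρ⌋₊ ⌈x ^ (1 + 2 * η)⌉₊ hM hR t hadd hsep A B hA hB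
      (fun a => e (∑ j, (h j : ℝ) * (φ j a / q))) (fun b => e (∑ j, (h j : ℝ) * (ψ j b / q)))
      (fun a => (norm_e _).le) (fun b => (norm_e _).le)
    have hfull : ∑ w ∈ A ×ˢ B, e (∑ j, (h j : ℝ) * (val j w / q)) =
        ∑ a ∈ A, ∑ b ∈ B, e (∑ j, (h j : ℝ) * (φ j a / q)) * e (∑ j, (h j : ℝ) * (ψ j b / q)) *
          e (∑ k, (a k : ℝ) * t b k) := by
      rw [Finset.sum_product]
      apply Finset.sum_congr rfl
      intro a _
      apply Finset.sum_congr rfl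
      intro b _
      rw [← e_add, ← e_add]
      congr 1
      have e2 : ∑ k, (a k : ℝ) * t b k = ∑ j, (h j : ℝ) * (bil (T j) a b / q) := by
        simp only [ht, bil]
        have e3 : ∀ k, (a k : ℝ) * ((∑ j, (h j : ℝ) * ∑ l, T j k l * (b l : ℝ)) / q) =
            ∑ j, (h j : ℝ) * ((a k : ℝ) * ∑ l, T j k l * (b l : ℝ)) / q := by
          intro k
          rw [← mul_div_assoc, Finset.mul_sum, Finset.sum_div]
          exact Finset.sum_congr rfl fun j _ => by ring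
        rw [Finset.sum_congr rfl fun k _ => e3 k, Finset.sum_comm]
        apply Finset.sum_congr rfl
        intro j _
        rw [Finset.sum_div, Finset.mul_sum]
        exact Finset.sum_congr rfl fun k _ => by ring
      rw [e2, ← Finset.sum_add_distrib, ← Finset.sum_add_distrib]
      apply Finset.sum_congr rfl
      intro j _
      simp only [hval]
      ring
    have hAll : ‖∑ w ∈ A ×ˢ B, e (∑ j, (h j : ℝ) * (val j w / q))‖ ≤ P * x ^ (-(δ / 4)) := by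
      rw [hfull]
      have h5 : (A.card : ℝ) * (B.card * BB d N ⌊x ^ ρ⌋₊ ⌈x ^ (1 + 2 * η)⌉₊) ≤
          (P * x ^ (-(δ / 4))) ^ 2 := by
        calc (A.card : ℝ) * (B.card * BB d N ⌊x ^ ρ⌋₊ ⌈x ^ (1 + 2 * η)⌉₊)
            = P * BB d N ⌊x ^ ρ⌋₊ ⌈x ^ (1 + 2 * η)⌉₊ := by rw [hP]; ring
          _ ≤ P * x ^ (d * (2 - ρ) + 4 * d * η) := mul_le_mul_of_nonneg_left hB2 hP0.le
          _ = P * (x ^ (d * (2 - ρ) + δ) * x ^ (4 * d * η - δ)) := by
              rw [← Real.rpow_add hx0]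
              congr 2
              ring
          _ ≤ P * (P * x ^ (4 * d * η - δ)) := by
              apply mul_le_mul_of_nonneg_left _ hP0.le
              exact mul_le_mul_of_nonneg_right hAB (Real.rpow_nonneg hx0.le _)
          _ ≤ P * (P * x ^ (-(δ / 2))) := by
              apply mul_le_mul_of_nonneg_left _ hP0.le
              apply mul_le_mul_of_nonneg_left _ hP0.le
              apply Real.rpow_le_rpow_of_exponent_le hx1
              nlinarith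
          _ = (P * x ^ (-(δ / 4))) ^ 2 := by
              have e5 : x ^ (-(δ / 2)) = (x ^ (-(δ / 4))) ^ 2 := by
                rw [← Real.rpow_natCast, ← Real.rpow_mul hx0.le]
                congr 1
                push_cast
                ring
              rw [e5]
              ring
      exact (pow_le_pow_iff_left₀ (norm_nonneg _) (mul_nonneg hP0.le (Real.rpow_nonneg hx0.le _))
        (by norm_num)).mp (hbil.trans h5)
    have hsplit : ∑ w ∈ s, e (∑ j, (h j : ℝ) * (val j w / q)) =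
        ∑ w ∈ A ×ˢ B, e (∑ j, (h j : ℝ) * (val j w / q)) -
          ∑ w ∈ G, e (∑ j, (h j : ℝ) * (val j w / q)) := by
      rw [hs, ← Finset.sum_sdiff hGsub]
      ring
    rw [hsplit]
    have hGs : ‖∑ w ∈ G, e (∑ j, (h j : ℝ) * (val j w / q))‖ ≤ G.card := by
      refine (norm_sum_le _ _).trans ?_
      simp [norm_e]
    have h6 : (G.card : ℝ) ≤ P * x ^ (-(δ / 4)) := by
      refine hcon.le.trans ?_
      apply mul_le_mul_of_nonneg_left _ hP0.le
      apply Real.rpow_le_rpow_of_exponent_le hx1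
      linarith
    calc ‖∑ w ∈ A ×ˢ B, e (∑ j, (h j : ℝ) * (val j w / q)) -
          ∑ w ∈ G, e (∑ j, (h j : ℝ) * (val j w / q))‖
        ≤ P * x ^ (-(δ / 4)) + P * x ^ (-(δ / 4)) :=
          (norm_sub_le _ _).trans (add_le_add hAll (hGs.trans h6))
      _ = P / 2 * (4 * x ^ (-(δ / 4))) := by ring
      _ ≤ P / 2 * x ^ (-σ) := mul_le_mul_of_nonneg_left h4 (half_pos hP0).le
      _ ≤ s.card * x ^ (-σ) := mul_le_mul_of_nonneg_right hs2 (Real.rpow_nonneg hx0.le _)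
  have hlow : ∀ w ∈ s, ∀ j, x ^ σ ≤ val j w := by
    intro w hw j
    by_contra hlt
    push Not at hlt
    exact hnotG w hw (hGmem w (hmem w hw) (Or.inl ⟨j, hlt⟩))
  obtain ⟨w, hw, hw2⟩ := hcr ((Fin d → ℤ) × (Fin d → ℤ)) s (fun w j => val j w) hsne hlow hsum
  exact hnotG w hw (hGmem w (hmem w hw) (Or.inr fun j q hq => hw2 j q hq))

end Pool.Agent.N372.BF
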