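import Pool.Agent.N372.BF.Dist

set_option autoImplicit false

/-! # One number -/

namespace Pool.Agent.N372.BF

open Finset Filter Polynomial
open Pool.Agent.W147.PS (ff ev_pow)

lemma low_one {α : ℝ} (hirr : Irrational α) (n₀ : ℕ) : ∃ c : ℝ, 0 < c ∧ ∀ n : ℕ, 1 ≤ n → n < n₀ →
    ∀ m : ℤ, c ≤ |(n : ℝ) * α - m| := by
  induction n₀ with
  | zero => exact ⟨1, one_pos, fun n _ h => absurd h (Nat.not_lt_zero n)⟩
  | succ n₀ ih =>
    obtain ⟨c, hc, h⟩ := ih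
    rcases Nat.eq_zero_or_pos n₀ with h0 | h0
    · exact ⟨1, one_pos, fun n h1 h2 => by omega⟩
    · have hne : 0 < |(n₀ : ℝ) * α - round ((n₀ : ℝ) * α)| := by
        rw [abs_pos, sub_ne_zero]
        intro heq
        have h3 : Irrational ((n₀ : ℝ) * α) := hirr.natCast_mul (by omega)
        exact h3 ⟨(round ((n₀ : ℝ) * α) : ℚ), by push_cast; exact heq.symm⟩
      refine ⟨min c |(n₀ : ℝ) * α - round ((n₀ : ℝ) * α)|, lt_min hc hne, ?_⟩
      intro n h1 h2 m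
      rcases Nat.lt_succ_iff_lt_or_eq.1 h2 with h3 | h3
      · exact (min_le_left _ _).trans (h n h1 h3 m)
      · rw [h3]
        exact (min_le_right _ _).trans (round_le _ _)

lemma low_all {α : ℝ} (hirr : Irrational α) (s : ℝ) (hs : 0 ≤ s)
    (hL : ¬ LiouvilleWith (1 + s) α) : ∃ c : ℝ, 0 < c ∧ ∀ n : ℕ, 1 ≤ n → ∀ m : ℤ,
    c * (n : ℝ) ^ (-s) ≤ |(n : ℝ) * α - m| := by
  unfold LiouvilleWith at hL
  push Not at hL
  obtain ⟨n₀, hn₀⟩ := eventually_atTop.1 (hL 1)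
  obtain ⟨c, hc, h⟩ := low_one hirr n₀
  refine ⟨min c 1, lt_min hc one_pos, ?_⟩
  intro n hn m
  have hn0 : (0 : ℝ) < n := by exact_mod_cast hn
  have hn1 : (1 : ℝ) ≤ n := by exact_mod_cast hn
  have hp : (n : ℝ) ^ (-s) ≤ 1 := Real.rpow_le_one_of_one_le_of_nonpos hn1 (by linarith)
  have hp0 : 0 < (n : ℝ) ^ (-s) := Real.rpow_pos_of_pos hn0 _
  rcases lt_or_ge n n₀ with h1 | h1
  · refine le_trans ?_ (h n hn h1 m)
    calc min c 1 * (n : ℝ) ^ (-s) ≤ c * 1 :=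
          mul_le_mul (min_le_left _ _) hp hp0.le hc.le
      _ = c := mul_one c
  · have hne : α ≠ m / n := by
      intro heq
      exact hirr ⟨(m : ℚ) / n, by push_cast; exact heq.symm⟩
    have h2 := hn₀ n h1 m hne
    have h3 : |(n : ℝ) * α - m| = n * |α - m / n| := by
      have e1 : (n : ℝ) * α - m = n * (α - m / n) := by
        field_simp
      rw [e1, abs_mul, abs_of_pos hn0]
    rw [h3]
    calc min c 1 * (n : ℝ) ^ (-s) ≤ 1 * (n : ℝ) ^ (-s) :=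
          mul_le_mul_of_nonneg_right (min_le_right _ _) hp0.le
      _ = n * (1 / (n : ℝ) ^ (1 + s)) := by
          rw [one_mul, Real.rpow_add hn0, Real.rpow_one, Real.rpow_neg hn0.le]
          field_simp
      _ ≤ _ := mul_le_mul_of_nonneg_left h2 hn0.le

lemma typ_one {α : ℝ} (hirr : Irrational α) (s : ℝ) (hs : 0 ≤ s)
    (hL : ¬ LiouvilleWith (1 + s) α) : Typ s s (fun _ : Fin 1 => α) := by
  obtain ⟨c, hc, h⟩ := low_all hirr s hs hL
  refine ⟨c, hc, ?_⟩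
  intro k H g m hk hg hgH
  have hg0 : g 0 ≠ 0 := by
    intro h0
    apply hg
    funext j
    rw [Subsingleton.elim j 0, h0]
    rfl
  set l : ℕ := (g 0).natAbs with hl
  have hl1 : 1 ≤ l := by omega
  have hlH : l ≤ H := by
    have := hgH 0
    rw [Int.abs_eq_natAbs] at this
    exact_mod_cast this
  have hk0 : (0 : ℝ) < k := by exact_mod_cast hk
  have hl0 : (0 : ℝ) < l := by exact_mod_cast hl1
  have hlr : (l : ℝ) ≤ H := by exact_mod_cast hlH
  have hkl : 1 ≤ k * l := Nat.mul_pos hk hl1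
  have hbound : ∀ m' : ℤ, c * (k : ℝ) ^ (-s) * (H : ℝ) ^ (-s) ≤ |((k * l : ℕ) : ℝ) * α - m'| := by
    intro m'
    refine le_trans ?_ (h (k * l) hkl m')
    push_cast
    rw [Real.mul_rpow hk0.le hl0.le, mul_assoc]
    apply mul_le_mul_of_nonneg_left _ hc.le
    apply mul_le_mul_of_nonneg_left _ (Real.rpow_nonneg hk0.le _)
    exact Real.rpow_le_rpow_of_nonpos hl0 hlr (by linarith)
  rw [Fin.sum_univ_one]
  rcases le_or_gt 0 (g 0) with h0 | h0
  · have e1 : (g 0 : ℝ) = l := by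
      have : (l : ℤ) = g 0 := by omega
      rw [← this]
      push_cast
      rfl
    have h2 := hbound m
    rw [e1]
    refine h2.trans (le_of_eq ?_)
    push_cast
    congr 1
    ring
  · have e1 : (g 0 : ℝ) = -l := by
      have : -(l : ℤ) = g 0 := by omega
      rw [← this]
      push_cast
      rfl
    have h2 := hbound (-m)
    rw [e1]
    refine h2.trans (le_of_eq ?_)
    push_cast
    rw [← abs_neg]
    congr 1
    ring

lemma expo (d : ℕ) (τ δ : ℝ) (hτ : 1 ≤ τ) (hδ : 0 < δ) : ∃ ε : ℝ, 0 < ε ∧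
    d * (2 - 1 / (τ + ε)) + δ / 2 ≤ d * (2 - 1 / τ) + δ := by
  have hd0 : (0 : ℝ) ≤ d := Nat.cast_nonneg d
  have hτ0 : 0 < τ := by linarith
  refine ⟨δ / (2 * (d + 1)), by positivity, ?_⟩
  set ε : ℝ := δ / (2 * (d + 1)) with hε
  have hε0 : 0 < ε := by positivity
  have hεd : ε * (2 * (d + 1)) = δ := by
    rw [hε]
    field_simp
  have h1 : 1 / τ - 1 / (τ + ε) ≤ ε := by
    rw [div_sub_div _ _ hτ0.ne' (by linarith), div_le_iff₀ (by positivity)]
    have h2 : 1 ≤ τ * (τ + ε) := by nlinarith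
    nlinarith
  have h3 : d * (1 / τ - 1 / (τ + ε)) ≤ d * ε := mul_le_mul_of_nonneg_left h1 hd0
  have h4 : (d : ℝ) * ε ≤ δ / 2 := by nlinarith
  nlinarith

theorem prod_one (τ δ : ℝ) (hτ : 1 ≤ τ) (hδ : 0 < δ) (hδ1 : δ ≤ 1) : ∃ κ : ℝ, 0 < κ ∧
    ∀ α : ℝ, 0 < α → Irrational α → (∀ p : ℝ, τ + 1 < p → ¬ LiouvilleWith p α) →
    ∀ᶠ N : ℕ in atTop, ∀ A B : Finset ℕ, (∀ a ∈ A, 1 ≤ a ∧ a ≤ N) → (∀ b ∈ B, 1 ≤ b ∧ b ≤ N) →
    (N : ℝ) ^ (2 - 1 / τ + δ) ≤ A.card * B.card →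
    ∀ φ ψ : ℕ → ℝ, (∀ n, 0 ≤ φ n) → (∀ n, 0 ≤ ψ n) →
      A.card * B.card * (N : ℝ) ^ (-δ) ≤
        ((PP (fun _ : Fin 1 => α) (fun _ => φ) (fun _ => ψ) A B (κ * ff N)).card : ℝ) := by
  obtain ⟨ε, hε, hε2⟩ := expo 1 τ δ hτ hδ
  obtain ⟨κ, hκ, h⟩ := prods 1 le_rfl (τ + ε) (τ + ε) (δ / 2) (by linarith) (by linarith)
    (by linarith) (by linarith)
  refine ⟨κ, hκ, ?_⟩
  intro α hα hirr hL
  filter_upwards [h (fun _ => α) (fun _ => hα) (typ_one hirr (τ + ε) (by linarith)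
    (hL _ (by linarith))), eventually_ge_atTop 1] with N hN hN1
  intro A B hA hB hAB φ ψ hφ hψ
  have hy1 : (1 : ℝ) ≤ N := by exact_mod_cast hN1
  refine le_trans ?_ (hN A B hA hB (le_trans ?_ hAB) (fun _ => φ) (fun _ => ψ) (fun _ => hφ)
    (fun _ => hψ))
  · apply mul_le_mul_of_nonneg_left _ (by positivity)
    exact Real.rpow_le_rpow_of_exponent_le hy1 (by linarith)
  · apply Real.rpow_le_rpow_of_exponent_le hy1
    push_cast at hε2
    linarith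

theorem dist_one (d : ℕ) (τ δ : ℝ) (hτ : 1 ≤ τ) (hδ : 0 < δ) (hδ1 : δ ≤ 1) : ∃ κ : ℝ, 0 < κ ∧
    ∀ α : ℝ, 0 < α → Irrational α → (∀ p : ℝ, τ + 1 < p → ¬ LiouvilleWith p α) →
    ∀ᶠ N : ℕ in atTop, ∀ A B : Finset (Fin d → ℤ), (∀ a ∈ A, ∀ i, |a i| ≤ N) →
    (∀ b ∈ B, ∀ i, |b i| ≤ N) → (N : ℝ) ^ (d * (2 - 1 / τ) + δ) ≤ A.card * B.card →
      A.card * B.card * (N : ℝ) ^ (-δ) ≤
        ((QQ (fun _ : Fin 1 => α) A B (κ * ff N)).card : ℝ) := by
  obtain ⟨ε, hε, hε2⟩ := expo d τ δ hτ hδ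
  obtain ⟨κ, hκ, h⟩ := dists d 1 le_rfl (τ + ε) (τ + ε) (δ / 2) (by linarith) (by linarith)
    (by linarith) (by linarith)
  refine ⟨κ, hκ, ?_⟩
  intro α hα hirr hL
  filter_upwards [h (fun _ => α) (fun _ => hα) (typ_one hirr (τ + ε) (by linarith)
    (hL _ (by linarith))), eventually_ge_atTop 1] with N hN hN1
  intro A B hA hB hAB
  have hy1 : (1 : ℝ) ≤ N := by exact_mod_cast hN1
  refine le_trans ?_ (hN A B hA hB (le_trans ?_ hAB))
  · apply mul_le_mul_of_nonneg_left _ (by positivity)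
    exact Real.rpow_le_rpow_of_exponent_le hy1 (by linarith)
  · exact Real.rpow_le_rpow_of_exponent_le hy1 hε2

/-- Liouville's inequality -/
lemma alg_not {α : ℝ} (hirr : Irrational α) (g : ℤ[X]) (hg : g ≠ 0) (hgα : aeval α g = 0) (p : ℝ)
    (hp : (g.natDegree : ℝ) < p) : ¬ LiouvilleWith p α := by
  have hroot : eval α (map (algebraMap ℤ ℝ) g) = 0 := by
    rw [eval_map_algebraMap]
    exact hgα
  obtain ⟨K, hK, h⟩ := Liouville.exists_pos_real_of_irrational_root hirr hg hroot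
  intro hL
  obtain ⟨C, hC⟩ := hL
  have h1 : ∀ᶠ n : ℕ in atTop, K * C < (n : ℝ) ^ (p - g.natDegree) :=
    ((tendsto_rpow_atTop (by linarith : 0 < p - (g.natDegree : ℝ))).comp
      tendsto_natCast_atTop_atTop).eventually_gt_atTop _
  obtain ⟨n, ⟨m, _, hm⟩, h2, hn⟩ := (hC.and_eventually (h1.and (eventually_ge_atTop 1))).exists
  have hn0 : (0 : ℝ) < n := by exact_mod_cast hn
  have h3 := h m (n - 1)
  have e1 : (((n - 1 : ℕ) : ℝ) + 1) = n := by
    rw [Nat.cast_sub hn]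
    simp
  rw [e1] at h3
  have h4 : (n : ℝ) ^ g.natDegree * (|α - m / n| * K) < 1 := by
    have hpos : 0 < (n : ℝ) ^ p := Real.rpow_pos_of_pos hn0 _
    have e2 : (n : ℝ) ^ p = (n : ℝ) ^ g.natDegree * (n : ℝ) ^ (p - g.natDegree) := by
      rw [← Real.rpow_natCast, ← Real.rpow_add hn0]
      congr 1
      ring
    have hA : 0 < (n : ℝ) ^ g.natDegree := by positivity
    have hB : 0 < (n : ℝ) ^ (p - g.natDegree) := Real.rpow_pos_of_pos hn0 _
    calc (n : ℝ) ^ g.natDegree * (|α - m / n| * K)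
        ≤ (n : ℝ) ^ g.natDegree * (C / (n : ℝ) ^ p * K) := by
          apply mul_le_mul_of_nonneg_left _ hA.le
          exact mul_le_mul_of_nonneg_right hm.le hK.le
      _ = (K * C) / (n : ℝ) ^ (p - g.natDegree) := by
          rw [e2]
          field_simp
      _ < 1 := by
          rw [div_lt_one hB]
          exact h2
  linarith

end Pool.Agent.N372.BF
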