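import Pool.Agent.N372.BF.Bil
import Pool.Agent.W147.PS.Scale

set_option autoImplicit false

/-! # The parameters -/

namespace Pool.Agent.N372.BF

open Finset Filter
open Pool.Agent.W147.PS (ev_pow)

lemma ev_nat {p : ℝ → Prop} (h : ∀ᶠ x : ℝ in atTop, p x) : ∀ᶠ N : ℕ in atTop, p (N : ℝ) :=
  tendsto_natCast_atTop_atTop.eventually h

/-- the number of blocks -/
lemma ev_blocks (ρ η : ℝ) (hρ0 : 0 < ρ) (hρ1 : ρ ≤ 1) (hη : 0 < η) : ∀ᶠ N : ℕ in atTop,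
    0 < ⌊(N : ℝ) ^ ρ⌋₊ ∧
      2 * ((N / ⌊(N : ℝ) ^ ρ⌋₊ + 1 : ℕ) : ℝ) + 1 ≤ (N : ℝ) ^ (1 - ρ + η) := by
  filter_upwards [ev_nat (ev_pow (1 - ρ) (1 - ρ + η) 7 (by linarith)), eventually_ge_atTop 1]
    with N h7 hN1
  set x : ℝ := (N : ℝ) with hx
  have hx1 : 1 ≤ x := by rw [hx]; exact_mod_cast hN1
  have hx0 : 0 < x := lt_of_lt_of_le one_pos hx1
  have h1 : 1 ≤ x ^ ρ := Real.one_le_rpow hx1 hρ0.le
  have hR0 : 0 < ⌊x ^ ρ⌋₊ := Nat.floor_pos.2 h1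
  refine ⟨hR0, ?_⟩
  have hRr : (0 : ℝ) < ⌊x ^ ρ⌋₊ := by exact_mod_cast hR0
  have hR1 : (1 : ℝ) ≤ ⌊x ^ ρ⌋₊ := by exact_mod_cast hR0
  have h2 : x ^ ρ / 2 ≤ ⌊x ^ ρ⌋₊ := by
    have := Nat.lt_floor_add_one (x ^ ρ)
    linarith
  have h3 : ((N / ⌊x ^ ρ⌋₊ : ℕ) : ℝ) ≤ 2 * x ^ (1 - ρ) := by
    refine Nat.cast_div_le.trans ?_
    rw [div_le_iff₀ hRr]
    have h4 : x = x ^ (1 - ρ) * x ^ ρ := by
      rw [← Real.rpow_add hx0]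
      simp
    have h5 : 0 ≤ x ^ (1 - ρ) := Real.rpow_nonneg hx0.le _
    calc (N : ℝ) = x ^ (1 - ρ) * x ^ ρ := h4
      _ = 2 * x ^ (1 - ρ) * (x ^ ρ / 2) := by ring
      _ ≤ 2 * x ^ (1 - ρ) * ⌊x ^ ρ⌋₊ := mul_le_mul_of_nonneg_left h2 (by positivity)
  have h6 : 1 ≤ x ^ (1 - ρ) := Real.one_le_rpow hx1 (by linarith)
  push_cast
  linarith

/-- the number of cells -/
lemma ev_cells (η : ℝ) (hη : 0 < η) : ∀ᶠ N : ℕ in atTop,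
    0 < ⌈(N : ℝ) ^ (1 + 2 * η)⌉₊ ∧
      1 / ((⌈(N : ℝ) ^ (1 + 2 * η)⌉₊ : ℕ) : ℝ) ≤ (N : ℝ) ^ (-(1 + 2 * η)) ∧
      2 * (2 * (N : ℝ) + 1 + 2 * (⌈(N : ℝ) ^ (1 + 2 * η)⌉₊ : ℕ) *
        (1 + Real.log ((⌈(N : ℝ) ^ (1 + 2 * η)⌉₊ : ℕ) : ℝ))) ≤ (N : ℝ) ^ (1 + 3 * η) := by
  obtain ⟨ε, hε⟩ : ∃ ε : ℝ, ε = η / 4 / (2 + 2 * η) := ⟨_, rfl⟩
  have hε0 : 0 < ε := by rw [hε]; positivity
  have hεη : (2 + 2 * η) * ε = η / 4 := by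
    rw [hε]
    field_simp
  filter_upwards [ev_nat (ev_pow 0 1 2 (by norm_num)),
    ev_nat (ev_pow (η / 4) (η / 2) (1 + 1 / ε) (by linarith)),
    ev_nat (ev_pow (1 + 5 / 2 * η) (1 + 3 * η) 14 (by linarith)), eventually_ge_atTop 1]
    with N h2 hlog h14 hN1
  set x : ℝ := (N : ℝ) with hx
  have hx1 : 1 ≤ x := by rw [hx]; exact_mod_cast hN1
  have hx0 : 0 < x := lt_of_lt_of_le one_pos hx1
  rw [Real.rpow_zero, mul_one, Real.rpow_one] at h2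
  set y := x ^ (1 + 2 * η) with hy
  have hy1 : 1 ≤ y := Real.one_le_rpow hx1 (by linarith)
  have hM0 : 0 < ⌈y⌉₊ := Nat.ceil_pos.2 (by linarith)
  have hMy : y ≤ ⌈y⌉₊ := Nat.le_ceil y
  have hM2 : ((⌈y⌉₊ : ℕ) : ℝ) ≤ 2 * y := by
    have := Nat.ceil_lt_add_one (show 0 ≤ y by linarith)
    linarith
  set M : ℝ := ((⌈y⌉₊ : ℕ) : ℝ) with hM
  have hM00 : 0 < M := by linarith
  refine ⟨hM0, ?_, ?_⟩
  · rw [Real.rpow_neg hx0.le, ← hy, one_div]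
    exact inv_anti₀ (by linarith) hMy
  · have hMx : M ≤ x ^ (2 + 2 * η) := by
      have e1 : x ^ (2 + 2 * η) = x * y := by
        rw [hy, show (2 + 2 * η : ℝ) = 1 + (1 + 2 * η) by ring, Real.rpow_add hx0, Real.rpow_one]
      rw [e1]
      exact hM2.trans (mul_le_mul_of_nonneg_right h2 (by linarith))
    have hl : 1 + Real.log M ≤ x ^ (η / 2) := by
      have h3 := Real.log_le_rpow_div hM00.le hε0
      have h4 : M ^ ε ≤ x ^ (η / 4) := by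
        calc M ^ ε ≤ (x ^ (2 + 2 * η)) ^ ε := Real.rpow_le_rpow hM00.le hMx hε0.le
          _ = x ^ (η / 4) := by rw [← Real.rpow_mul hx0.le, hεη]
      have h5 : M ^ ε / ε ≤ x ^ (η / 4) / ε := div_le_div_of_nonneg_right h4 hε0.le
      have h6 : 1 ≤ x ^ (η / 4) := Real.one_le_rpow hx1 (by linarith)
      have h7 : (1 + 1 / ε) * x ^ (η / 4) = x ^ (η / 4) + x ^ (η / 4) / ε := by ring
      linarith
    have hz : x ^ (1 + 5 / 2 * η) = y * x ^ (η / 2) := by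
      rw [hy, ← Real.rpow_add hx0]
      congr 1
      ring
    have hz1 : x ≤ x ^ (1 + 5 / 2 * η) := by
      calc x = x ^ (1 : ℝ) := (Real.rpow_one x).symm
        _ ≤ _ := Real.rpow_le_rpow_of_exponent_le hx1 (by linarith)
    have h8 : M * (1 + Real.log M) ≤ 2 * x ^ (1 + 5 / 2 * η) := by
      have h9 : 0 ≤ x ^ (η / 2) := Real.rpow_nonneg hx0.le _
      calc M * (1 + Real.log M) ≤ M * x ^ (η / 2) := mul_le_mul_of_nonneg_left hl hM00.le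
        _ ≤ 2 * y * x ^ (η / 2) := mul_le_mul_of_nonneg_right hM2 h9
        _ = _ := by rw [hz]; ring
    have h10 : 1 ≤ x ^ (1 + 5 / 2 * η) := hx1.trans hz1
    calc 2 * (2 * x + 1 + 2 * M * (1 + Real.log M)) =
          4 * x + 2 + 4 * (M * (1 + Real.log M)) := by ring
      _ ≤ 14 * x ^ (1 + 5 / 2 * η) := by linarith
      _ ≤ _ := h14

/-- the bound for `BB` -/
lemma ev_BB (d : ℕ) (ρ η : ℝ) (hρ0 : 0 < ρ) (hρ1 : ρ ≤ 1) (hη : 0 < η) : ∀ᶠ N : ℕ in atTop,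
    0 < ⌊(N : ℝ) ^ ρ⌋₊ ∧ 0 < ⌈(N : ℝ) ^ (1 + 2 * η)⌉₊ ∧
      1 / ((⌈(N : ℝ) ^ (1 + 2 * η)⌉₊ : ℕ) : ℝ) ≤ (N : ℝ) ^ (-(1 + 2 * η)) ∧
      BB d N ⌊(N : ℝ) ^ ρ⌋₊ ⌈(N : ℝ) ^ (1 + 2 * η)⌉₊ ≤ (N : ℝ) ^ (d * (2 - ρ) + 4 * d * η) := by
  filter_upwards [ev_blocks ρ η hρ0 hρ1 hη, ev_cells η hη, eventually_ge_atTop 1] with N h1 h2 hN1
  obtain ⟨h1a, h1b⟩ := h1
  obtain ⟨h2a, h2b, h2c⟩ := h2
  refine ⟨h1a, h2a, h2b, ?_⟩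
  set x : ℝ := (N : ℝ) with hx
  have hx1 : 1 ≤ x := by rw [hx]; exact_mod_cast hN1
  have hx0 : 0 < x := lt_of_lt_of_le one_pos hx1
  set M := ⌈x ^ (1 + 2 * η)⌉₊ with hM
  have hM1 : (1 : ℝ) ≤ M := by exact_mod_cast h2a
  have hlog : 0 ≤ Real.log M := Real.log_nonneg hM1
  unfold BB
  have h3 : (2 * ((N / ⌊x ^ ρ⌋₊ + 1 : ℕ) : ℝ) + 1) ^ d ≤ (x ^ (1 - ρ + η)) ^ d :=
    pow_le_pow_left₀ (by positivity) h1b d
  have h4 : (2 * (2 * x + 1 + 2 * (M : ℝ) * (1 + Real.log M))) ^ d ≤ (x ^ (1 + 3 * η)) ^ d :=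
    pow_le_pow_left₀ (by positivity) h2c d
  refine (mul_le_mul h3 h4 (by positivity) (by positivity)).trans (le_of_eq ?_)
  rw [← mul_pow, ← Real.rpow_add hx0, ← Real.rpow_natCast, ← Real.rpow_mul hx0.le]
  congr 1
  ring

end Pool.Agent.N372.BF
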