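import Pool.Agent.N372.BF.Cor

set_option autoImplicit false

/-! # Products -/

namespace Pool.Agent.N372.BF

open Finset Filter
open Pool.Agent.W147.PS (ff ev_pow)

/-- a number as a vector -/
def emb (a : ℕ) : Fin 1 → ℤ := fun _ => (a : ℤ)

lemma emb_inj : Function.Injective emb := by
  intro a b h
  have := congrFun h 0
  simpa [emb] using this

open Classical in
/-- the good pairs of natural numbers -/
noncomputable def PP {r : ℕ} (α : Fin r → ℝ) (φ ψ : Fin r → ℕ → ℝ) (A B : Finset ℕ) (D : ℝ) :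
    Finset (ℕ × ℕ) :=
  (A ×ˢ B).filter (fun w => ∀ j, Free (α j * w.1 * w.2 + φ j w.1 + ψ j w.2) D)

lemma inv_le_sum {r : ℕ} (α : Fin r → ℝ) (hα : ∀ j, 0 < α j) (j : Fin r) :
    1 / α j ≤ ∑ i, 1 / α i :=
  Finset.single_le_sum (f := fun i => 1 / α i) (fun i _ => by have := hα i; positivity)
    (Finset.mem_univ j)

theorem prods (r : ℕ) (hr : 1 ≤ r) (τ C δ : ℝ) (hτ : 1 ≤ τ) (hC : 0 ≤ C) (hδ : 0 < δ)
    (hδ1 : δ ≤ 1) : ∃ κ : ℝ, 0 < κ ∧ ∀ α : Fin r → ℝ, (∀ j, 0 < α j) → Typ τ C α →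
    ∀ᶠ N : ℕ in atTop, ∀ A B : Finset ℕ, (∀ a ∈ A, 1 ≤ a ∧ a ≤ N) → (∀ b ∈ B, 1 ≤ b ∧ b ≤ N) →
    (N : ℝ) ^ (2 - 1 / τ + δ) ≤ A.card * B.card →
    ∀ φ ψ : Fin r → ℕ → ℝ, (∀ j n, 0 ≤ φ j n) → (∀ j n, 0 ≤ ψ j n) →
      A.card * B.card * (N : ℝ) ^ (-δ) ≤ ((PP α φ ψ A B (κ * ff N)).card : ℝ) := by
  classical
  obtain ⟨σ, κ, hσ0, hση, hκ, hs⟩ := scal 1 r hr τ C (δ / 2) hτ hC (by linarith) (by linarith)
  have hη : eta 1 (δ / 2) * (16 * (((1 : ℕ) : ℝ) + 1)) = δ / 2 := eta_mul 1 (δ / 2)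
  have hσ1 : 64 * σ ≤ δ := by push_cast at hη; linarith
  refine ⟨κ, hκ, ?_⟩
  intro α hα hT
  set K : ℝ := ∑ i, 1 / α i with hK
  have hK0 : 0 ≤ K := Finset.sum_nonneg fun i _ => by have := hα i; positivity
  have hτ0 : 0 < τ := by linarith
  have hτi : 1 / τ ≤ 1 := (div_le_one hτ0).2 hτ
  filter_upwards [hs α hT, ev_nat (ev_pow (2 * σ) (1 / 2) (2 * (K + 1) ^ 2) (by linarith)),
    ev_nat (ev_pow (-δ) (-(δ / 2)) 2 (by linarith)), eventually_ge_atTop 1] with N hN h1 h2 hN1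
  intro A B hA hB hAB φ ψ hφ hψ
  set y : ℝ := (N : ℝ) with hy
  have hy1 : 1 ≤ y := by rw [hy]; exact_mod_cast hN1
  have hy0 : 0 < y := lt_of_lt_of_le one_pos hy1
  set A' := A.image emb with hA'
  set B' := B.image emb with hB'
  have cA : A'.card = A.card := Finset.card_image_of_injective _ emb_inj
  have cB : B'.card = B.card := Finset.card_image_of_injective _ emb_inj
  set P : ℝ := A.card * B.card with hP
  have hP1 : y ≤ P := by
    refine le_trans ?_ hAB
    calc y = y ^ (1 : ℝ) := (Real.rpow_one y).symm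
      _ ≤ _ := Real.rpow_le_rpow_of_exponent_le hy1 (by linarith)
  have hP0 : 0 < P := by linarith
  have hmain := hN A' B' (by
      intro a ha i
      rw [hA', Finset.mem_image] at ha
      obtain ⟨a0, ha0, rfl⟩ := ha
      have := (hA a0 ha0).2
      simp only [emb]
      rw [abs_of_nonneg (by positivity)]
      exact_mod_cast this) (by
      intro a ha i
      rw [hB', Finset.mem_image] at ha
      obtain ⟨a0, ha0, rfl⟩ := ha
      have := (hB a0 ha0).2
      simp only [emb]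
      rw [abs_of_nonneg (by positivity)]
      exact_mod_cast this) (by
      rw [cA, cB]
      refine le_trans ?_ hAB
      apply Real.rpow_le_rpow_of_exponent_le hy1
      push_cast
      linarith) (fun j x => φ j (x 0).toNat) (fun j x => ψ j (x 0).toNat)
  rw [cA, cB] at hmain
  set S : Finset (ℕ × ℕ) := Finset.range (⌊K * y ^ σ⌋₊ + 1) ×ˢ Finset.range (⌊K * y ^ σ⌋₊ + 1)
    with hS
  have hsub : GG (fun j => diag 1 (α j)) (fun j x => φ j (x 0).toNat)
      (fun j x => ψ j (x 0).toNat) A' B' (y ^ σ) (κ * ff y) ⊆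
      (S ∪ PP α φ ψ A B (κ * ff y)).image (fun w => (emb w.1, emb w.2)) := by
    intro w hw
    unfold GG at hw
    rw [Finset.mem_filter, Finset.mem_product] at hw
    obtain ⟨⟨hw1, hw2⟩, hw3⟩ := hw
    rw [hA', Finset.mem_image] at hw1
    rw [hB', Finset.mem_image] at hw2
    obtain ⟨a, ha, ha2⟩ := hw1
    obtain ⟨b, hb, hb2⟩ := hw2
    have hval : ∀ j, bil (diag 1 (α j)) w.1 w.2 + φ j (w.1 0).toNat + ψ j (w.2 0).toNat =
        α j * a * b + φ j a + ψ j b := by
      intro j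
      rw [bil_diag, ← ha2, ← hb2]
      simp [emb]
      ring
    simp only [hval] at hw3
    rw [Finset.mem_image]
    refine ⟨(a, b), ?_, Prod.ext ha2 hb2⟩
    rw [Finset.mem_union]
    rcases hw3 with ⟨j, hj⟩ | h
    · left
      rw [hS, Finset.mem_product, Finset.mem_range, Finset.mem_range]
      have h3 := hφ j a
      have h4 := hψ j b
      have h5 : α j * a * b < y ^ σ := by linarith
      have hαj := hα j
      have ha1 : (1 : ℝ) ≤ a := by exact_mod_cast (hA a ha).1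
      have hb1 : (1 : ℝ) ≤ b := by exact_mod_cast (hB b hb).1
      have h6 : (a : ℝ) * b ≤ K * y ^ σ := by
        have h7 : (a : ℝ) * b = 1 / α j * (α j * a * b) := by field_simp
        rw [h7]
        calc 1 / α j * (α j * a * b) ≤ 1 / α j * y ^ σ :=
              mul_le_mul_of_nonneg_left h5.le (by positivity)
          _ ≤ K * y ^ σ := mul_le_mul_of_nonneg_right (inv_le_sum α hα j)
              (Real.rpow_nonneg hy0.le _)
      constructor
      · have h8 : (a : ℝ) ≤ K * y ^ σ := by nlinarith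
        have := Nat.le_floor h8
        omega
      · have h8 : (b : ℝ) ≤ K * y ^ σ := by nlinarith
        have := Nat.le_floor h8
        omega
    · right
      unfold PP
      rw [Finset.mem_filter, Finset.mem_product]
      exact ⟨⟨ha, hb⟩, h⟩
  have hcard : ((GG (fun j => diag 1 (α j)) (fun j x => φ j (x 0).toNat)
      (fun j x => ψ j (x 0).toNat) A' B' (y ^ σ) (κ * ff y)).card : ℝ) ≤
      S.card + (PP α φ ψ A B (κ * ff y)).card := by
    exact_mod_cast (Finset.card_le_card hsub).trans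
      (Finset.card_image_le.trans (Finset.card_union_le _ _))
  have hScard : (S.card : ℝ) ≤ P / 2 * y ^ (-(δ / 2)) := by
    have hyσ : 1 ≤ y ^ σ := Real.one_le_rpow hy1 hσ0.le
    have h3 : ((⌊K * y ^ σ⌋₊ : ℕ) : ℝ) + 1 ≤ (K + 1) * y ^ σ := by
      have := Nat.floor_le (show 0 ≤ K * y ^ σ by positivity)
      nlinarith
    have h4 : (S.card : ℝ) = (((⌊K * y ^ σ⌋₊ : ℕ) : ℝ) + 1) ^ 2 := by
      rw [hS, Finset.card_product, Finset.card_range]
      push_cast
      ring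
    have h5 : y ^ (1 / 2 : ℝ) ≤ P * y ^ (-(δ / 2)) := by
      calc y ^ (1 / 2 : ℝ) ≤ y ^ (1 - δ / 2 : ℝ) :=
            Real.rpow_le_rpow_of_exponent_le hy1 (by linarith)
        _ = y * y ^ (-(δ / 2)) := by
            rw [sub_eq_add_neg, Real.rpow_add hy0, Real.rpow_one]
        _ ≤ P * y ^ (-(δ / 2)) := mul_le_mul_of_nonneg_right hP1 (Real.rpow_nonneg hy0.le _)
    rw [h4]
    calc (((⌊K * y ^ σ⌋₊ : ℕ) : ℝ) + 1) ^ 2 ≤ ((K + 1) * y ^ σ) ^ 2 :=
          pow_le_pow_left₀ (by positivity) h3 2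
      _ = (K + 1) ^ 2 * y ^ (2 * σ) := by
          rw [mul_pow, ← Real.rpow_natCast (y ^ σ), ← Real.rpow_mul hy0.le]
          congr 2
          push_cast
          ring
      _ ≤ y ^ (1 / 2 : ℝ) / 2 := by linarith
      _ ≤ P / 2 * y ^ (-(δ / 2)) := by linarith
  have h6 : P * y ^ (-δ) ≤ P / 2 * y ^ (-(δ / 2)) := by
    calc P * y ^ (-δ) = P / 2 * (2 * y ^ (-δ)) := by ring
      _ ≤ P / 2 * y ^ (-(δ / 2)) := mul_le_mul_of_nonneg_left h2 (half_pos hP0).le
  linarith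

end Pool.Agent.N372.BF
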