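import Pool.Agent.N372.BF.One

set_option autoImplicit false

/-! # One set -/

namespace Pool.Agent.N372.BF

open Finset Filter Polynomial
open Pool.Agent.W147.PS (ff ev_pow)

/-- products of two distinct elements of one set -/
theorem prod_set (δ : ℝ) (hδ : 0 < δ) (hδ1 : δ ≤ 1) : ∃ κ : ℝ, 0 < κ ∧
    ∀ α : ℝ, 0 < α → Irrational α → (∀ p : ℝ, 2 < p → ¬ LiouvilleWith p α) →
    ∀ᶠ N : ℕ in atTop, ∀ A : Finset ℕ, (∀ a ∈ A, 1 ≤ a ∧ a ≤ N) →
    (N : ℝ) ^ (1 / 2 + δ) ≤ A.card →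
    ∀ φ ψ : ℕ → ℝ, (∀ n, 0 ≤ φ n) → (∀ n, 0 ≤ ψ n) →
      ∃ a ∈ A, ∃ b ∈ A, a ≠ b ∧ Free (α * a * b + φ a + ψ b) (κ * ff N) := by
  classical
  obtain ⟨κ, hκ, h⟩ := prod_one 1 δ le_rfl hδ hδ1
  refine ⟨κ, hκ, ?_⟩
  intro α hα hirr hL
  filter_upwards [h α hα hirr (fun p hp => hL p (by linarith)), eventually_ge_atTop 2] with N hN hN2
  intro A hA hAN φ ψ hφ hψ
  have hy1 : (1 : ℝ) < N := by exact_mod_cast (by omega : 1 < N)
  have hy0 : (0 : ℝ) < N := by linarith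
  have hP : (N : ℝ) ^ (1 / 2 + δ) * (N : ℝ) ^ (1 / 2 + δ) ≤ (A.card : ℝ) * A.card :=
    mul_le_mul hAN hAN (Real.rpow_nonneg hy0.le _) (Nat.cast_nonneg _)
  rw [← Real.rpow_add hy0] at hP
  have h1 := hN A A hA hA (le_trans (Real.rpow_le_rpow_of_exponent_le hy1.le (by
    rw [div_one]; linarith)) hP) φ ψ hφ hψ
  have hc0 : (0 : ℝ) < A.card := lt_of_lt_of_le (Real.rpow_pos_of_pos hy0 _) hAN
  have h2 : (A.card : ℝ) < A.card * A.card * (N : ℝ) ^ (-δ) := by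
    have h3 : (1 : ℝ) < A.card * (N : ℝ) ^ (-δ) := by
      calc (1 : ℝ) < (N : ℝ) ^ (1 / 2 : ℝ) := Real.one_lt_rpow hy1 (by norm_num)
        _ = (N : ℝ) ^ (1 / 2 + δ) * (N : ℝ) ^ (-δ) := by
            rw [← Real.rpow_add hy0]; congr 1; ring
        _ ≤ _ := mul_le_mul_of_nonneg_right hAN (Real.rpow_nonneg hy0.le _)
    rw [mul_assoc]
    nlinarith
  have h4 : (A.card : ℝ) < ((PP (fun _ : Fin 1 => α) (fun _ => φ) (fun _ => ψ) A A
      (κ * ff N)).card : ℝ) := lt_of_lt_of_le h2 h1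
  by_contra hcon
  push Not at hcon
  have h5 : (PP (fun _ : Fin 1 => α) (fun _ => φ) (fun _ => ψ) A A (κ * ff N)) ⊆ A.diag := by
    intro w hw
    unfold PP at hw
    rw [Finset.mem_filter, Finset.mem_product] at hw
    rw [Finset.mem_diag]
    refine ⟨hw.1.1, ?_⟩
    by_contra hne
    exact hcon w.1 hw.1.1 w.2 hw.1.2 hne (hw.2 0)
  have h6 := Finset.card_le_card h5
  rw [Finset.diag_card] at h6
  have h7 : ((PP (fun _ : Fin 1 => α) (fun _ => φ) (fun _ => ψ) A A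
      (κ * ff N)).card : ℝ) ≤ A.card := by exact_mod_cast h6
  linarith

/-- quadratic irrationals -/
lemma quad_not {α : ℝ} (hirr : Irrational α) (g : ℤ[X]) (hg : g ≠ 0) (hgα : aeval α g = 0)
    (h2 : g.natDegree ≤ 2) (p : ℝ) (hp : 2 < p) : ¬ LiouvilleWith p α :=
  alg_not hirr g hg hgα p (lt_of_le_of_lt (by exact_mod_cast h2) hp)

end Pool.Agent.N372.BF
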