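import Pool.Agent.Y961.JR.Class
import Pool.Agent.Y961.JR.Disc

set_option autoImplicit false

/-! # Sums over separated points of the torus -/

namespace Pool.Agent.N372.BF

open Finset
open Pool.Agent.H469R2.NK (e norm_e e_add conj_e e_zero)
open Pool.Agent.Y961.JR (geom_bound e_sum)

/-- the length of the geometric sum -/
noncomputable def D (L : ℕ) (θ : ℝ) : ℝ := ‖∑ n ∈ range L, e (n * θ)‖

lemma D_nonneg (L : ℕ) (θ : ℝ) : 0 ≤ D L θ := norm_nonneg _

lemma D_le (L : ℕ) (θ : ℝ) : D L θ ≤ L := by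
  unfold D
  refine (norm_sum_le _ _).trans ?_
  simp [norm_e]

lemma D_far (L : ℕ) (θ δ : ℝ) (hδ : 0 < δ) (hθ : ∀ m : ℤ, δ ≤ |θ - m|) : D L θ ≤ 2 / δ := by
  have h := geom_bound θ 0 δ hδ hθ L
  simpa [D] using h

/-- bound for the geometric sum in a cell -/
noncomputable def G1 (L M : ℕ) (j : ℕ) : ℝ := 2 * M / j + if j = 0 then (L : ℝ) else 0

lemma G1_nonneg (L M j : ℕ) : 0 ≤ G1 L M j := by
  unfold G1
  split_ifs <;> positivity

lemma G1_far {L M j : ℕ} {θ : ℝ} (hM : 0 < M) (h : ∀ m : ℤ, (j : ℝ) / M ≤ |θ - m|) :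
    D L θ ≤ G1 L M j := by
  have hM' : (0 : ℝ) < M := by exact_mod_cast hM
  unfold G1
  rcases Nat.eq_zero_or_pos j with h0 | h0
  · rw [if_pos h0]
    have : (0 : ℝ) ≤ 2 * M / j := by positivity
    linarith [D_le L θ]
  · rw [if_neg (by omega), add_zero]
    have hj : (0 : ℝ) < j := by exact_mod_cast h0
    refine (D_far L θ (j / M) (by positivity) h).trans (le_of_eq ?_)
    field_simp

/-- the cell of `θ` -/
noncomputable def cell (M : ℕ) (θ : ℝ) : ℕ := ⌊Int.fract θ * M⌋₊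

lemma cell_lt {M : ℕ} (hM : 0 < M) (θ : ℝ) : cell M θ < M := by
  have hM' : (0 : ℝ) < M := by exact_mod_cast hM
  unfold cell
  rw [Nat.floor_lt (mul_nonneg (Int.fract_nonneg θ) hM'.le)]
  have := Int.fract_lt_one θ
  nlinarith

lemma cell_bounds {M : ℕ} (hM : 0 < M) (θ : ℝ) :
    (cell M θ : ℝ) / M ≤ Int.fract θ ∧ Int.fract θ < (cell M θ + 1) / M := by
  have hM' : (0 : ℝ) < M := by exact_mod_cast hM
  have h0 : 0 ≤ Int.fract θ * M := mul_nonneg (Int.fract_nonneg θ) hM'.le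
  constructor
  · rw [div_le_iff₀ hM']
    exact Nat.floor_le h0
  · rw [lt_div_iff₀ hM']
    exact Nat.lt_floor_add_one _

lemma D_cell (L M : ℕ) (hM : 0 < M) (θ : ℝ) :
    D L θ ≤ G1 L M (cell M θ) + G1 L M (M - 1 - cell M θ) := by
  have hM' : (0 : ℝ) < M := by exact_mod_cast hM
  obtain ⟨h1, h2⟩ := cell_bounds hM θ
  have hlt := cell_lt hM θ
  set k := cell M θ with hk
  have hf0 := Int.fract_nonneg θ
  have hf1 := Int.fract_lt_one θ
  have key : ∀ m : ℤ, Int.fract θ ≤ |θ - m| ∨ 1 - Int.fract θ ≤ |θ - m| := by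
    intro m
    have e1 : θ = ⌊θ⌋ + Int.fract θ := (Int.floor_add_fract θ).symm
    rcases le_or_gt m ⌊θ⌋ with h | h
    · left
      have h3 : (m : ℝ) ≤ ⌊θ⌋ := by exact_mod_cast h
      rw [abs_of_nonneg (by linarith)]
      linarith
    · right
      have h3 : (⌊θ⌋ : ℝ) + 1 ≤ m := by exact_mod_cast h
      rw [abs_of_nonpos (by linarith)]
      linarith
  rcases le_total k (M - 1 - k) with h | h
  · have h3 : D L θ ≤ G1 L M k := by
      apply G1_far hM
      intro m
      rcases key m with h4 | h4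
      · exact h1.trans h4
      · refine le_trans ?_ h4
        have h5 : (k : ℝ) + k + 1 ≤ M := by
          have : k + k + 1 ≤ M := by omega
          exact_mod_cast this
        rw [lt_div_iff₀ hM'] at h2
        rw [div_le_iff₀ hM']
        nlinarith
    linarith [G1_nonneg L M (M - 1 - k)]
  · have h3 : D L θ ≤ G1 L M (M - 1 - k) := by
      apply G1_far hM
      intro m
      have hcast : ((M - 1 - k : ℕ) : ℝ) = M - 1 - k := by
        rw [Nat.cast_sub (by omega), Nat.cast_sub (by omega)]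
        simp
      rcases key m with h4 | h4
      · refine le_trans ?_ h4
        rw [hcast]
        have h5 : (M : ℝ) - 1 - k ≤ k := by
          have : M - 1 - k ≤ k := h
          have h6 : ((M - 1 - k : ℕ) : ℝ) ≤ k := by exact_mod_cast this
          rwa [hcast] at h6
        rw [div_le_iff₀ hM'] at h1
        rw [div_le_iff₀ hM']
        linarith
      · refine le_trans ?_ h4
        rw [hcast]
        rw [lt_div_iff₀ hM'] at h2
        rw [div_le_iff₀ hM']
        nlinarith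
    linarith [G1_nonneg L M k]

/-- the sum of the bounds over the cells -/
lemma sum_G1 (L M : ℕ) (hM : 0 < M) :
    ∑ j ∈ range M, G1 L M j ≤ L + 2 * M * (1 + Real.log M) := by
  have h1 : ∑ j ∈ range M, G1 L M j =
      2 * M * ∑ j ∈ range M, ((j : ℝ))⁻¹ + ∑ j ∈ range M, if j = 0 then (L : ℝ) else 0 := by
    unfold G1
    rw [sum_add_distrib, Finset.mul_sum]
    congr 1
  rw [h1]
  have h2 : ∑ j ∈ range M, (if j = 0 then (L : ℝ) else 0) ≤ L := by
    rw [Finset.sum_ite_eq' (range M) 0 (fun _ => (L : ℝ))]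
    split_ifs
    · exact le_rfl
    · exact Nat.cast_nonneg _
  have h3 : ∑ j ∈ range M, ((j : ℝ))⁻¹ ≤ 1 + Real.log M := by
    obtain ⟨M', rfl⟩ : ∃ M', M = M' + 1 := ⟨M - 1, by omega⟩
    rw [sum_range_succ']
    simp only [Nat.cast_zero, inv_zero, add_zero]
    have h4 := harmonic_le_one_add_log M'
    have h5 : ((harmonic M' : ℚ) : ℝ) = ∑ j ∈ range M', (((j + 1 : ℕ) : ℝ))⁻¹ := by
      unfold harmonic
      push_cast
      rfl
    rw [h5] at h4
    refine h4.trans ?_
    rcases Nat.eq_zero_or_pos M' with h0 | h0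
    · rw [h0]; simp
    · have : Real.log M' ≤ Real.log ((M' + 1 : ℕ) : ℝ) :=
        Real.log_le_log (by exact_mod_cast h0) (by push_cast; linarith)
      linarith
  have h6 : 2 * (M : ℝ) * ∑ j ∈ range M, ((j : ℝ))⁻¹ ≤ 2 * M * (1 + Real.log M) :=
    mul_le_mul_of_nonneg_left h3 (by positivity)
  linarith

/-- the bound for a cell, both sides -/
noncomputable def G2 (L M : ℕ) (j : ℕ) : ℝ := G1 L M j + G1 L M (M - 1 - j)

lemma G2_nonneg (L M j : ℕ) : 0 ≤ G2 L M j := add_nonneg (G1_nonneg _ _ _) (G1_nonneg _ _ _)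

lemma sum_G2 (L M : ℕ) (hM : 0 < M) :
    ∑ j ∈ range M, G2 L M j ≤ 2 * (L + 2 * M * (1 + Real.log M)) := by
  unfold G2
  rw [sum_add_distrib, Finset.sum_range_reflect (fun j => G1 L M j) M]
  linarith [sum_G1 L M hM]

/-- Points of the torus, no two of which are in the same cell. -/
theorem sum_sep {ι : Type} {d : ℕ} (P : Finset ι) (x : ι → Fin d → ℝ) (L M : ℕ) (hM : 0 < M)
    (hsep : ∀ i ∈ P, ∀ i' ∈ P, i ≠ i' → ∀ m : Fin d → ℤ, ∃ k, 1 / (M : ℝ) ≤ |x i k - x i' k - m k|) :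
    ∑ i ∈ P, ∏ k, D L (x i k) ≤ (2 * (L + 2 * M * (1 + Real.log M))) ^ d := by
  classical
  have hM' : (0 : ℝ) < M := by exact_mod_cast hM
  set c : ι → Fin d → ℕ := fun i k => cell M (x i k) with hc
  have h1 : ∀ i ∈ P, ∏ k, D L (x i k) ≤ ∏ k, G2 L M (c i k) := by
    intro i _
    apply Finset.prod_le_prod
    · intro k _
      exact D_nonneg _ _
    · intro k _
      exact D_cell L M hM _
  have hinj : Set.InjOn c P := by
    intro i hi i' hi' hcc
    by_contra hne
    obtain ⟨k, hk⟩ := hsep i hi i' hi' hne (fun k => ⌊x i k⌋ - ⌊x i' k⌋)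
    have h2 : cell M (x i k) = cell M (x i' k) := congrFun hcc k
    obtain ⟨a1, a2⟩ := cell_bounds hM (x i k)
    obtain ⟨b1, b2⟩ := cell_bounds hM (x i' k)
    rw [← h2] at b1 b2
    have e1 : x i k - x i' k - ((⌊x i k⌋ - ⌊x i' k⌋ : ℤ) : ℝ) =
        Int.fract (x i k) - Int.fract (x i' k) := by
      push_cast
      rw [← Int.self_sub_floor, ← Int.self_sub_floor]
      ring
    rw [e1] at hk
    have e2 : ((cell M (x i k) : ℝ) + 1) / M = (cell M (x i k) : ℝ) / M + 1 / M := by ring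
    rw [e2] at a2 b2
    rcases abs_cases (Int.fract (x i k) - Int.fract (x i' k)) with ⟨h5, _⟩ | ⟨h5, _⟩ <;>
      rw [h5] at hk <;> linarith
  have h2 : ∑ i ∈ P, ∏ k, D L (x i k) ≤ ∑ i ∈ P, ∏ k, G2 L M (c i k) := Finset.sum_le_sum h1
  have h3 : ∑ i ∈ P, ∏ k, G2 L M (c i k) ≤
      ∑ y ∈ Fintype.piFinset (fun _ : Fin d => range M), ∏ k, G2 L M (y k) := by
    have h4 := Finset.sum_image (f := fun y : Fin d → ℕ => ∏ k, G2 L M (y k)) hinj
    rw [← h4]
    apply Finset.sum_le_sum_of_subset_of_nonneg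
    · intro y hy
      rw [Finset.mem_image] at hy
      obtain ⟨i, _, rfl⟩ := hy
      rw [Fintype.mem_piFinset]
      intro k
      rw [mem_range]
      exact cell_lt hM _
    · intro y _ _
      exact Finset.prod_nonneg fun k _ => G2_nonneg _ _ _
  have h5 : ∑ y ∈ Fintype.piFinset (fun _ : Fin d => range M), ∏ k, G2 L M (y k) =
      (∑ j ∈ range M, G2 L M j) ^ d := by
    rw [← Finset.prod_univ_sum]
    simp
  have h6 : (∑ j ∈ range M, G2 L M j) ^ d ≤ (2 * (L + 2 * M * (1 + Real.log M))) ^ d := by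
    apply pow_le_pow_left₀
    · exact Finset.sum_nonneg fun j _ => G2_nonneg _ _ _
    · exact sum_G2 L M hM
  exact ((h2.trans h3).trans h5.le).trans h6

end Pool.Agent.N372.BF
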